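import Mathlib

/-!
A group with a finite-index subgroup mapping non-trivially to the integers has unitary
representations with almost invariant vectors and no invariant vector.
-/

set_option autoImplicit false

namespace Pool.Agent.Lib.MP_c86c76_al.NotT

open Complex

/-- The unit complex number `exp (i t n)`. -/
noncomputable def ch (t : ℝ) (n : ℤ) : ℂ := Complex.exp (I * ((t * n : ℝ) : ℂ))

theorem ch_add (t : ℝ) (m n : ℤ) : ch t (m + n) = ch t m * ch t n := by
  unfold ch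
  rw [← Complex.exp_add]
  congr 1
  push_cast
  ring

theorem ch_zero (t : ℝ) : ch t 0 = 1 := by simp [ch]

theorem norm_ch (t : ℝ) (n : ℤ) : ‖ch t n‖ = 1 := Complex.norm_exp_I_mul_ofReal _

theorem norm_ch_sub (t : ℝ) (n : ℤ) : ‖ch t n - 1‖ ≤ |t| * |(n : ℝ)| := by
  have := Real.norm_exp_I_mul_ofReal_sub_one_le (x := t * n)
  rw [Real.norm_eq_abs, abs_mul] at this
  exact this

theorem ch_ne_one (t : ℝ) (n : ℤ) (h0 : t * n ≠ 0) (h1 : |t * n| < 1) : ch t n ≠ 1 := by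
  intro h
  unfold ch at h
  obtain ⟨k, hk⟩ := Complex.exp_eq_one_iff.1 h
  have h2 : (t * n : ℝ) = k * (2 * Real.pi) := by
    have := congrArg Complex.im hk
    simpa using this
  have hk0 : k ≠ 0 := by
    rintro rfl
    exact h0 (by simpa using h2)
  have h3 : (1 : ℝ) ≤ |(k : ℝ)| := by exact_mod_cast Int.one_le_abs hk0
  rw [h2, abs_mul, abs_of_pos Real.two_pi_pos] at h1
  nlinarith [Real.pi_gt_three]

section
variable {G X : Type} [Group G] [MulAction G X] [Fintype X]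

/-- The twisted permutation operator. -/
noncomputable def twLin (a : G → X → ℤ) (t : ℝ) (g : G) :
    EuclideanSpace ℂ X →ₗ[ℂ] EuclideanSpace ℂ X where
  toFun f := WithLp.toLp 2 fun x => ch t (a g (g⁻¹ • x)) * f (g⁻¹ • x)
  map_add' f f' := by
    ext x
    simp [mul_add]
  map_smul' c f := by
    ext x
    simp
    ring

omit [Fintype X] in
theorem twLin_apply (a : G → X → ℤ) (t : ℝ) (g : G) (f : EuclideanSpace ℂ X) (x : X) :
    twLin a t g f x = ch t (a g (g⁻¹ • x)) * f (g⁻¹ • x) := rfl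

theorem twLin_norm (a : G → X → ℤ) (t : ℝ) (g : G) (f : EuclideanSpace ℂ X) :
    ‖twLin a t g f‖ = ‖f‖ := by
  rw [EuclideanSpace.norm_eq, EuclideanSpace.norm_eq]
  congr 1
  simp only [twLin_apply, norm_mul, norm_ch, one_mul]
  exact Equiv.sum_comp (MulAction.toPerm g⁻¹) (fun x => ‖f x‖ ^ 2)

/-- The twisted permutation operator as a unitary. -/
noncomputable def twIso (a : G → X → ℤ) (t : ℝ) (g : G) :
    EuclideanSpace ℂ X ≃ₗᵢ[ℂ] EuclideanSpace ℂ X :=
  LinearIsometry.toLinearIsometryEquiv ⟨twLin a t g, twLin_norm a t g⟩ rfl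

theorem twIso_apply (a : G → X → ℤ) (t : ℝ) (g : G) (f : EuclideanSpace ℂ X) (x : X) :
    twIso a t g f x = ch t (a g (g⁻¹ • x)) * f (g⁻¹ • x) := rfl

/-- The twisted permutation representation. -/
noncomputable def twRep (a : G → X → ℤ) (ha : ∀ g h x, a (g * h) x = a g (h • x) + a h x)
    (t : ℝ) : G →* (EuclideanSpace ℂ X ≃ₗᵢ[ℂ] EuclideanSpace ℂ X) :=
  MonoidHom.mk' (twIso a t) fun g h => by
    ext f x
    simp only [LinearIsometryEquiv.coe_mul, Function.comp_apply, twIso_apply, ha, ch_add,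
      mul_inv_rev, mul_smul, smul_inv_smul]
    ring

theorem almost_of_cocycle (x0 : X) (htr : ∀ x, ∃ g : G, g • x0 = x) (a : G → X → ℤ)
    (ha : ∀ g h x, a (g * h) x = a g (h • x) + a h x) (γ : G) (hγ : γ • x0 = x0)
    (hn : a γ x0 ≠ 0) (S : Finset G) (ε : ℝ) (hε : 0 < ε) :
    ∃ (H : Type) (_ : NormedAddCommGroup H) (_ : InnerProductSpace ℂ H) (_ : CompleteSpace H)
      (π : G →* (H ≃ₗᵢ[ℂ] H)) (v : H), ‖v‖ = 1 ∧ (∀ s ∈ S, ‖π s v - v‖ < ε) ∧
      ∀ w : H, (∀ g, π g w = w) → w = 0 := by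
  classical
  obtain ⟨K, hK1, hKS, hKγ⟩ : ∃ K : ℝ, 1 ≤ K ∧ (∀ s ∈ S, ∀ x, |(a s x : ℝ)| ≤ K) ∧
      |(a γ x0 : ℝ)| ≤ K := by
    refine ⟨1 + |(a γ x0 : ℝ)| + ∑ s ∈ S, ∑ x, |(a s x : ℝ)|, ?_, fun s hs x => ?_, ?_⟩
    · have : 0 ≤ ∑ s ∈ S, ∑ x, |(a s x : ℝ)| := by positivity
      have := abs_nonneg (a γ x0 : ℝ)
      linarith
    · have h1 : |(a s x : ℝ)| ≤ ∑ x, |(a s x : ℝ)| :=
        Finset.single_le_sum (f := fun x => |(a s x : ℝ)|) (fun _ _ => abs_nonneg _)
          (Finset.mem_univ x)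
      have h2 : ∑ x, |(a s x : ℝ)| ≤ ∑ s ∈ S, ∑ x, |(a s x : ℝ)| :=
        Finset.single_le_sum (f := fun s => ∑ x, |(a s x : ℝ)|) (fun _ _ => by positivity) hs
      have := abs_nonneg (a γ x0 : ℝ)
      linarith
    · have : 0 ≤ ∑ s ∈ S, ∑ x, |(a s x : ℝ)| := by positivity
      linarith
  set δ : ℝ := min ε 1 / 2 with hδ
  have hδ0 : 0 < δ := by
    have := lt_min hε one_pos
    positivity
  have hδε : δ < ε := by
    have := min_le_left ε 1
    linarith
  have hδ1 : δ < 1 := by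
    have := min_le_right ε 1
    linarith
  set t : ℝ := δ / K with ht
  have hK0 : 0 < K := by linarith
  have ht0 : 0 < t := by positivity
  have htK : t * K = δ := by
    rw [ht]
    field_simp
  let u : EuclideanSpace ℂ X := WithLp.toLp 2 fun _ => (1 : ℂ)
  have hu : u ≠ 0 := fun h => by
    have := congrArg (fun f : EuclideanSpace ℂ X => f x0) h
    simp [u] at this
  have hun : 0 < ‖u‖ := norm_pos_iff.2 hu
  refine ⟨EuclideanSpace ℂ X, inferInstance, inferInstance, inferInstance, twRep a ha t,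
    ((‖u‖⁻¹ : ℝ) : ℂ) • u, ?_, fun s hs => ?_, fun w hw => ?_⟩
  · rw [norm_smul, Complex.norm_real, norm_inv, norm_norm, inv_mul_cancel₀ hun.ne']
  · rw [map_smul, ← smul_sub, norm_smul, Complex.norm_real, norm_inv, norm_norm]
    have h1 : ‖twRep a ha t s u - u‖ ≤ ‖(δ : ℂ) • u‖ := by
      rw [EuclideanSpace.norm_eq, EuclideanSpace.norm_eq]
      refine Real.sqrt_le_sqrt (Finset.sum_le_sum fun x _ => ?_)
      refine pow_le_pow_left₀ (norm_nonneg _) ?_ 2
      have e1 : (twRep a ha t s u - u) x = ch t (a s (s⁻¹ • x)) - 1 := by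
        show twIso a t s u x - 1 = _
        rw [twIso_apply]
        simp [u]
      have e2 : ((δ : ℂ) • u) x = δ := by simp [u]
      rw [e1, e2, Complex.norm_real, Real.norm_eq_abs, abs_of_pos hδ0]
      refine (norm_ch_sub _ _).trans ?_
      rw [abs_of_pos ht0, ← htK]
      exact mul_le_mul_of_nonneg_left (hKS s hs _) ht0.le
    rw [norm_smul, Complex.norm_real, Real.norm_eq_abs, abs_of_pos hδ0] at h1
    calc ‖u‖⁻¹ * ‖twRep a ha t s u - u‖ ≤ ‖u‖⁻¹ * (δ * ‖u‖) :=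
          mul_le_mul_of_nonneg_left h1 (by positivity)
      _ = δ := by field_simp
      _ < ε := hδε
  · have h0 : w x0 = 0 := by
      have h1 : ch t (a γ (γ⁻¹ • x0)) * w (γ⁻¹ • x0) = w x0 :=
        congrArg (fun f : EuclideanSpace ℂ X => f x0) (hw γ)
      have h2 : γ⁻¹ • x0 = x0 := by rw [inv_smul_eq_iff, hγ]
      rw [h2] at h1
      have h3 : ch t (a γ x0) ≠ 1 := by
        refine ch_ne_one _ _ (mul_ne_zero ht0.ne' (by exact_mod_cast hn)) ?_
        rw [abs_mul, abs_of_pos ht0]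
        calc t * |(a γ x0 : ℝ)| ≤ t * K := mul_le_mul_of_nonneg_left hKγ ht0.le
          _ < 1 := by rw [htK]; exact hδ1
      by_contra h4
      exact h3 (mul_right_cancel₀ h4 (by rw [h1, one_mul]))
    ext x
    obtain ⟨g, rfl⟩ := htr x
    have h1 : ch t (a g (g⁻¹ • g • x0)) * w (g⁻¹ • g • x0) = w (g • x0) :=
      congrArg (fun f : EuclideanSpace ℂ X => f (g • x0)) (hw g)
    rw [inv_smul_smul, h0, mul_zero] at h1
    simp [← h1]

end

/-- A finite-index subgroup with a non-trivial homomorphism to the integers obstructs (T). -/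
theorem almost_of_virtual {G : Type} [Group G] (K : Subgroup G) [K.FiniteIndex]
    (φ : K →* Multiplicative ℤ) (k0 : K) (hk : φ k0 ≠ 1) (S : Finset G) (ε : ℝ) (hε : 0 < ε) :
    ∃ (H : Type) (_ : NormedAddCommGroup H) (_ : InnerProductSpace ℂ H) (_ : CompleteSpace H)
      (π : G →* (H ≃ₗᵢ[ℂ] H)) (v : H), ‖v‖ = 1 ∧ (∀ s ∈ S, ‖π s v - v‖ < ε) ∧
      ∀ w : H, (∀ g, π g w = w) → w = 0 := by
  classical
  have : Fintype (G ⧸ K) := Fintype.ofFinite _
  have hm : ∀ (g : G) (x : G ⧸ K), (g • x).out⁻¹ * (g * x.out) ∈ K := fun g x => by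
    rw [← QuotientGroup.eq, QuotientGroup.out_eq']
    conv_lhs => rw [← QuotientGroup.out_eq' x]
    rfl
  let x0 : G ⧸ K := ((1 : G) : G ⧸ K)
  have h0 : x0.out ∈ K := by
    have := QuotientGroup.eq.1 (QuotientGroup.out_eq' x0).symm
    simpa using this
  have hfix : (k0 : G) • x0 = x0 := by
    show (((k0 : G) * 1 : G) : G ⧸ K) = ((1 : G) : G ⧸ K)
    rw [QuotientGroup.eq]
    simp
  refine almost_of_cocycle x0 (fun x => ⟨x.out, ?_⟩)
    (fun g x => (φ ⟨_, hm g x⟩).toAdd) (fun g h x => ?_) k0 hfix ?_ S ε hε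
  · show ((x.out * 1 : G) : G ⧸ K) = x
    rw [mul_one, QuotientGroup.out_eq']
  · rw [← toAdd_mul, ← map_mul]
    congr 2
    apply Subtype.ext
    simp only [Subgroup.coe_mul, mul_smul]
    group
  · have e : (⟨_, hm k0 x0⟩ : K) = (⟨_, h0⟩ : K)⁻¹ * (k0 * ⟨_, h0⟩) := by
      apply Subtype.ext
      simp only [Subgroup.coe_mul, Subgroup.coe_inv, hfix]
    simp only [e, map_mul, map_inv]
    intro h
    apply hk
    have : (φ ⟨_, h0⟩)⁻¹ * (φ k0 * φ ⟨_, h0⟩) = φ k0 := by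
      rw [mul_comm (φ k0), inv_mul_cancel_left]
    rw [this] at h
    exact toAdd_eq_zero.1 h

end Pool.Agent.Lib.MP_c86c76_al.NotT
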