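import Pool.Agent.Lib.MP_c86c76_al.NotT.Fast

/-!
The lists of word identities and the Gram matrix test.
-/

set_option autoImplicit false

namespace Pool.Agent.Lib.MP_c86c76_al.NotT

/-- Short identities. -/
def shortL : List (List (Fin 7) × List (Fin 7)) :=
  [([0,1,0],[1,0,1]), ([1,2,1],[2,1,2]), ([2,3,2],[3,2,3]), ([3,4,3],[4,3,4]), ([4,5,4],[5,4,5]),
   ([3,6,3],[6,3,6]), ([0,2],[2,0]), ([0,3],[3,0]), ([0,4],[4,0]), ([0,5],[5,0]), ([0,6],[6,0]),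
   ([1,3],[3,1]), ([1,4],[4,1]), ([1,5],[5,1]), ([1,6],[6,1]), ([2,4],[4,2]), ([2,5],[5,2]),
   ([2,6],[6,2]), ([3,5],[5,3]), ([4,6],[6,4]), ([5,6],[6,5]), ([0,0,0,0],[]), ([1,1,1,1],[]),
   ([2,2,2,2],[]), ([3,3,3,3],[]), ([4,4,4,4],[]), ([5,5,5,5],[]), ([6,6,6,6],[])]

/-- All short identities on one block. -/
noncomputable def cA (j : ℕ) : Bool := shortL.all fun p => chkZ p.1 p.2 j

/-- Two long identities on one block. -/
noncomputable def cB (j : ℕ) : Bool :=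
  chkZ (rp 10 [1,2,3,6]) (rp 6 [0,1,2,3,6]) j && chkZ (rp 4 [0]) (rp 8 [6,2,3,4,5]) j

/-- The longest identity on one block. -/
noncomputable def cC (j : ℕ) : Bool := chkZ (rp 12 [1,2,3,4,5,6]) (rp 9 [0,1,2,3,4,5,6]) j

end Pool.Agent.Lib.MP_c86c76_al.NotT
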