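import Pool.Agent.Lib.MP_c86c76_al.NotT.Bundle

/-!
Kernel checks.
-/

set_option autoImplicit false

namespace Pool.Agent.Lib.MP_c86c76_al.NotT

theorem cA_0 : cA 0 = true := by decide +kernel
theorem cB_0 : cB 0 = true := by decide +kernel
theorem cC_0 : cC 0 = true := by decide +kernel
theorem cA_1 : cA 1 = true := by decide +kernel
theorem cB_1 : cB 1 = true := by decide +kernel
theorem cC_1 : cC 1 = true := by decide +kernel
theorem cA_2 : cA 2 = true := by decide +kernel
theorem cB_2 : cB 2 = true := by decide +kernel
theorem cC_2 : cC 2 = true := by decide +kernel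
theorem cA_3 : cA 3 = true := by decide +kernel
theorem cB_3 : cB 3 = true := by decide +kernel
theorem cC_3 : cC 3 = true := by decide +kernel
theorem cA_4 : cA 4 = true := by decide +kernel
theorem cB_4 : cB 4 = true := by decide +kernel
theorem cC_4 : cC 4 = true := by decide +kernel
theorem cA_5 : cA 5 = true := by decide +kernel
theorem cB_5 : cB 5 = true := by decide +kernel
theorem cC_5 : cC 5 = true := by decide +kernel
theorem cA_6 : cA 6 = true := by decide +kernel
theorem cB_6 : cB 6 = true := by decide +kernel
theorem cC_6 : cC 6 = true := by decide +kernel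

end Pool.Agent.Lib.MP_c86c76_al.NotT
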