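import Pool.Agent.Lib.MP_c86c76_al.NotT.Bundle

/-!
Kernel checks.
-/

set_option autoImplicit false

namespace Pool.Agent.Lib.MP_c86c76_al.NotT

theorem cA_7 : cA 7 = true := by decide +kernel
theorem cB_7 : cB 7 = true := by decide +kernel
theorem cC_7 : cC 7 = true := by decide +kernel
theorem cA_8 : cA 8 = true := by decide +kernel
theorem cB_8 : cB 8 = true := by decide +kernel
theorem cC_8 : cC 8 = true := by decide +kernel
theorem cA_9 : cA 9 = true := by decide +kernel
theorem cB_9 : cB 9 = true := by decide +kernel
theorem cC_9 : cC 9 = true := by decide +kernel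
theorem cA_10 : cA 10 = true := by decide +kernel
theorem cB_10 : cB 10 = true := by decide +kernel
theorem cC_10 : cC 10 = true := by decide +kernel
theorem cA_11 : cA 11 = true := by decide +kernel
theorem cB_11 : cB 11 = true := by decide +kernel
theorem cC_11 : cC 11 = true := by decide +kernel
theorem cA_12 : cA 12 = true := by decide +kernel
theorem cB_12 : cB 12 = true := by decide +kernel
theorem cC_12 : cC 12 = true := by decide +kernel
theorem cA_13 : cA 13 = true := by decide +kernel
theorem cB_13 : cB 13 = true := by decide +kernel
theorem cC_13 : cC 13 = true := by decide +kernel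

end Pool.Agent.Lib.MP_c86c76_al.NotT
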