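import Pool.Agent.Lib.MP_c86c76_al.NotT.Bundle

/-!
Kernel checks.
-/

set_option autoImplicit false

namespace Pool.Agent.Lib.MP_c86c76_al.NotT

theorem cA_14 : cA 14 = true := by decide +kernel
theorem cB_14 : cB 14 = true := by decide +kernel
theorem cC_14 : cC 14 = true := by decide +kernel
theorem cA_15 : cA 15 = true := by decide +kernel
theorem cB_15 : cB 15 = true := by decide +kernel
theorem cC_15 : cC 15 = true := by decide +kernel
theorem cA_16 : cA 16 = true := by decide +kernel
theorem cB_16 : cB 16 = true := by decide +kernel
theorem cC_16 : cC 16 = true := by decide +kernel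
theorem cA_17 : cA 17 = true := by decide +kernel
theorem cB_17 : cB 17 = true := by decide +kernel
theorem cC_17 : cC 17 = true := by decide +kernel
theorem cA_18 : cA 18 = true := by decide +kernel
theorem cB_18 : cB 18 = true := by decide +kernel
theorem cC_18 : cC 18 = true := by decide +kernel
theorem cA_19 : cA 19 = true := by decide +kernel
theorem cB_19 : cB 19 = true := by decide +kernel
theorem cC_19 : cC 19 = true := by decide +kernel
theorem cA_20 : cA 20 = true := by decide +kernel
theorem cB_20 : cB 20 = true := by decide +kernel
theorem cC_20 : cC 20 = true := by decide +kernel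

end Pool.Agent.Lib.MP_c86c76_al.NotT
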