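import Pool.Agent.Lib.MP_c86c76_al.NotT.Bundle

/-!
Kernel checks.
-/

set_option autoImplicit false

namespace Pool.Agent.Lib.MP_c86c76_al.NotT

theorem cA_21 : cA 21 = true := by decide +kernel
theorem cB_21 : cB 21 = true := by decide +kernel
theorem cC_21 : cC 21 = true := by decide +kernel
theorem cA_22 : cA 22 = true := by decide +kernel
theorem cB_22 : cB 22 = true := by decide +kernel
theorem cC_22 : cC 22 = true := by decide +kernel
theorem cA_23 : cA 23 = true := by decide +kernel
theorem cB_23 : cB 23 = true := by decide +kernel
theorem cC_23 : cC 23 = true := by decide +kernel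
theorem cA_24 : cA 24 = true := by decide +kernel
theorem cB_24 : cB 24 = true := by decide +kernel
theorem cC_24 : cC 24 = true := by decide +kernel
theorem cA_25 : cA 25 = true := by decide +kernel
theorem cB_25 : cB 25 = true := by decide +kernel
theorem cC_25 : cC 25 = true := by decide +kernel
theorem cA_26 : cA 26 = true := by decide +kernel
theorem cB_26 : cB 26 = true := by decide +kernel
theorem cC_26 : cC 26 = true := by decide +kernel
theorem cA_27 : cA 27 = true := by decide +kernel
theorem cB_27 : cB 27 = true := by decide +kernel
theorem cC_27 : cC 27 = true := by decide +kernel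

end Pool.Agent.Lib.MP_c86c76_al.NotT
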