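import Pool.Agent.Lib.MP_c86c76_al.NotT.Gram

/-!
Kernel checks.
-/

set_option autoImplicit false

namespace Pool.Agent.Lib.MP_c86c76_al.NotT

theorem cG_0_0 : cG 0 [0, 1, 2, 3] = true := by decide +kernel
theorem cG_0_1 : cG 0 [4, 5, 6, 7] = true := by decide +kernel
theorem cG_0_2 : cG 0 [8, 9, 10, 11] = true := by decide +kernel
theorem cG_0_3 : cG 0 [12, 13, 14, 15] = true := by decide +kernel
theorem cG_0_4 : cG 0 [16, 17, 18, 19] = true := by decide +kernel
theorem cG_0_5 : cG 0 [20, 21, 22, 23] = true := by decide +kernel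
theorem cG_0_6 : cG 0 [24, 25, 26, 27] = true := by decide +kernel
theorem cG_1_0 : cG 1 [0, 1, 2, 3] = true := by decide +kernel
theorem cG_1_1 : cG 1 [4, 5, 6, 7] = true := by decide +kernel
theorem cG_1_2 : cG 1 [8, 9, 10, 11] = true := by decide +kernel
theorem cG_1_3 : cG 1 [12, 13, 14, 15] = true := by decide +kernel
theorem cG_1_4 : cG 1 [16, 17, 18, 19] = true := by decide +kernel
theorem cG_1_5 : cG 1 [20, 21, 22, 23] = true := by decide +kernel
theorem cG_1_6 : cG 1 [24, 25, 26, 27] = true := by decide +kernel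
theorem cG_2_0 : cG 2 [0, 1, 2, 3] = true := by decide +kernel
theorem cG_2_1 : cG 2 [4, 5, 6, 7] = true := by decide +kernel
theorem cG_2_2 : cG 2 [8, 9, 10, 11] = true := by decide +kernel
theorem cG_2_3 : cG 2 [12, 13, 14, 15] = true := by decide +kernel
theorem cG_2_4 : cG 2 [16, 17, 18, 19] = true := by decide +kernel
theorem cG_2_5 : cG 2 [20, 21, 22, 23] = true := by decide +kernel
theorem cG_2_6 : cG 2 [24, 25, 26, 27] = true := by decide +kernel
theorem cG_3_0 : cG 3 [0, 1, 2, 3] = true := by decide +kernel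
theorem cG_3_1 : cG 3 [4, 5, 6, 7] = true := by decide +kernel
theorem cG_3_2 : cG 3 [8, 9, 10, 11] = true := by decide +kernel
theorem cG_3_3 : cG 3 [12, 13, 14, 15] = true := by decide +kernel
theorem cG_3_4 : cG 3 [16, 17, 18, 19] = true := by decide +kernel
theorem cG_3_5 : cG 3 [20, 21, 22, 23] = true := by decide +kernel
theorem cG_3_6 : cG 3 [24, 25, 26, 27] = true := by decide +kernel

end Pool.Agent.Lib.MP_c86c76_al.NotT
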