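import Pool.Agent.Lib.MP_c86c76_al.NotT.Gram

/-!
Kernel checks.
-/

set_option autoImplicit false

namespace Pool.Agent.Lib.MP_c86c76_al.NotT

theorem cG_4_0 : cG 4 [0, 1, 2, 3] = true := by decide +kernel
theorem cG_4_1 : cG 4 [4, 5, 6, 7] = true := by decide +kernel
theorem cG_4_2 : cG 4 [8, 9, 10, 11] = true := by decide +kernel
theorem cG_4_3 : cG 4 [12, 13, 14, 15] = true := by decide +kernel
theorem cG_4_4 : cG 4 [16, 17, 18, 19] = true := by decide +kernel
theorem cG_4_5 : cG 4 [20, 21, 22, 23] = true := by decide +kernel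
theorem cG_4_6 : cG 4 [24, 25, 26, 27] = true := by decide +kernel
theorem cG_5_0 : cG 5 [0, 1, 2, 3] = true := by decide +kernel
theorem cG_5_1 : cG 5 [4, 5, 6, 7] = true := by decide +kernel
theorem cG_5_2 : cG 5 [8, 9, 10, 11] = true := by decide +kernel
theorem cG_5_3 : cG 5 [12, 13, 14, 15] = true := by decide +kernel
theorem cG_5_4 : cG 5 [16, 17, 18, 19] = true := by decide +kernel
theorem cG_5_5 : cG 5 [20, 21, 22, 23] = true := by decide +kernel
theorem cG_5_6 : cG 5 [24, 25, 26, 27] = true := by decide +kernel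
theorem cG_6_0 : cG 6 [0, 1, 2, 3] = true := by decide +kernel
theorem cG_6_1 : cG 6 [4, 5, 6, 7] = true := by decide +kernel
theorem cG_6_2 : cG 6 [8, 9, 10, 11] = true := by decide +kernel
theorem cG_6_3 : cG 6 [12, 13, 14, 15] = true := by decide +kernel
theorem cG_6_4 : cG 6 [16, 17, 18, 19] = true := by decide +kernel
theorem cG_6_5 : cG 6 [20, 21, 22, 23] = true := by decide +kernel
theorem cG_6_6 : cG 6 [24, 25, 26, 27] = true := by decide +kernel

end Pool.Agent.Lib.MP_c86c76_al.NotT
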