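import Mathlib

/-!
Tables of an affine action of the genus three mapping class group.
-/

set_option autoImplicit false

namespace Pool.Agent.Lib.MP_c86c76_al.NotT

/-- A sparse integer row: indices added and indices subtracted. -/
abbrev Row : Type := List ℕ × List ℕ

/-- Target block, the sixteen rows of the linear part, and the cocycle row. -/
abbrev Blk : Type := ℕ × List Row × Row

/-- One block of a generator. -/
def b0_0 : Blk := (1,[([],[1,2]),([0],[3]),([2],[]),([3],[]),([],[5,6]),([4],[7]),([6],[]),([7],[]),([],[9,10]),([8],[11]),([10],[]),([11],[]),([],[13,14]),([12],[15]),([14],[]),([15],[])],([],[]))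
/-- One block of a generator. -/
def b0_1 : Blk := (0,[([1,3],[]),([],[0,2]),([2],[]),([3],[]),([5,7],[]),([],[4,6]),([6],[]),([7],[]),([9,11],[]),([],[8,10]),([10],[]),([11],[]),([13,15],[]),([],[12,14]),([14],[]),([15],[])],([],[]))
/-- One block of a generator. -/
def b0_2 : Blk := (2,[([0,2],[]),([1,3],[]),([],[3]),([2],[]),([4,6],[]),([5,7],[]),([],[7]),([6],[]),([8,10],[]),([9,11],[]),([],[11]),([10],[]),([12,14],[]),([13,15],[]),([],[15]),([14],[])],([],[]))
/-- One block of a generator. -/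
def b0_3 : Blk := (4,[([],[1,2]),([0],[3]),([2],[]),([3],[]),([],[5,6]),([4],[7]),([6],[]),([7],[]),([],[9,10]),([8],[11]),([10],[]),([11],[]),([],[13,14]),([12],[15]),([14],[]),([15],[])],([],[]))
/-- One block of a generator. -/
def b0_4 : Blk := (3,[([1,3],[]),([],[0,2]),([2],[]),([3],[]),([5,7],[]),([],[4,6]),([6],[]),([7],[]),([9,11],[]),([],[8,10]),([10],[]),([11],[]),([13,15],[]),([],[12,14]),([14],[]),([15],[])],([],[]))
/-- One block of a generator. -/
def b0_5 : Blk := (5,[([],[1,2]),([0],[3]),([2],[]),([3],[]),([],[5,6]),([4],[7]),([6],[]),([7],[]),([],[9,10]),([8],[11]),([10],[]),([11],[]),([],[13,14]),([12],[15]),([14],[]),([15],[])],([],[]))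
/-- One block of a generator. -/
def b0_6 : Blk := (7,[([],[1,2]),([0],[3]),([2],[]),([3],[]),([],[5,6]),([4],[7]),([6],[]),([7],[]),([],[9,10]),([8],[11]),([10],[]),([11],[]),([],[13,14]),([12],[15]),([14],[]),([15],[])],([],[]))
/-- One block of a generator. -/
def b0_7 : Blk := (6,[([1,3],[]),([],[0,2]),([2],[]),([3],[]),([5,7],[]),([],[4,6]),([6],[]),([7],[]),([9,11],[]),([],[8,10]),([10],[]),([11],[]),([13,15],[]),([],[12,14]),([14],[]),([15],[])],([],[]))
/-- One block of a generator. -/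
def b0_8 : Blk := (8,[([0,2],[]),([1,3],[]),([],[3]),([2],[]),([4,6],[]),([5,7],[]),([],[7]),([6],[]),([8,10],[]),([9,11],[]),([],[11]),([10],[]),([12,14],[]),([13,15],[]),([],[15]),([14],[])],([],[]))
/-- One block of a generator. -/
def b0_9 : Blk := (9,[([0,2],[]),([1,3],[]),([],[3]),([2],[]),([4,6],[]),([5,7],[]),([],[7]),([6],[]),([8,10],[]),([9,11],[]),([],[11]),([10],[]),([12,14],[]),([13,15],[]),([],[15]),([14],[])],([],[]))
/-- One block of a generator. -/
def b0_10 : Blk := (10,[([],[1,2]),([0],[3]),([2],[]),([3],[]),([],[5,6]),([4],[7]),([6],[]),([7],[]),([],[9,10]),([8],[11]),([10],[]),([11],[]),([],[13,14]),([12],[15]),([14],[]),([15],[])],([],[]))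
/-- One block of a generator. -/
def b0_11 : Blk := (11,[([0,2],[]),([1,3],[]),([],[3]),([2],[]),([4,6],[]),([5,7],[]),([],[7]),([6],[]),([8,10],[]),([9,11],[]),([],[11]),([10],[]),([12,14],[]),([13,15],[]),([],[15]),([14],[])],([],[]))
/-- One block of a generator. -/
def b0_12 : Blk := (13,[([],[1,2]),([0],[3]),([2],[]),([3],[]),([],[5,6]),([4],[7]),([6],[]),([7],[]),([],[9,10]),([8],[11]),([10],[]),([11],[]),([],[13,14]),([12],[15]),([14],[]),([15],[])],([],[]))
/-- One block of a generator. -/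
def b0_13 : Blk := (12,[([1,3],[]),([],[0,2]),([2],[]),([3],[]),([5,7],[]),([],[4,6]),([6],[]),([7],[]),([9,11],[]),([],[8,10]),([10],[]),([11],[]),([13,15],[]),([],[12,14]),([14],[]),([15],[])],([],[]))
/-- One block of a generator. -/
def b0_14 : Blk := (14,[([0,2],[]),([1,3],[]),([],[3]),([2],[]),([4,6],[]),([5,7],[]),([],[7]),([6],[]),([8,10],[]),([9,11],[]),([],[11]),([10],[]),([12,14],[]),([13,15],[]),([],[15]),([14],[])],([],[]))
/-- One block of a generator. -/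
def b0_15 : Blk := (15,[([0,2],[]),([1,3],[]),([],[3]),([2],[]),([4,6],[]),([5,7],[]),([],[7]),([6],[]),([8,10],[]),([9,11],[]),([],[11]),([10],[]),([12,14],[]),([13,15],[]),([],[15]),([14],[])],([],[]))
/-- One block of a generator. -/
def b0_16 : Blk := (16,[([],[1,2]),([0],[3]),([2],[]),([3],[]),([],[5,6]),([4],[7]),([6],[]),([7],[]),([],[9,10]),([8],[11]),([10],[]),([11],[]),([],[13,14]),([12],[15]),([14],[]),([15],[])],([],[]))
/-- One block of a generator. -/
def b0_17 : Blk := (17,[([0,2],[]),([1,3],[]),([],[3]),([2],[]),([4,6],[]),([5,7],[]),([],[7]),([6],[]),([8,10],[]),([9,11],[]),([],[11]),([10],[]),([12,14],[]),([13,15],[]),([],[15]),([14],[])],([],[]))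
/-- One block of a generator. -/
def b0_18 : Blk := (18,[([],[1,2]),([0],[3]),([2],[]),([3],[]),([],[5,6]),([4],[7]),([6],[]),([7],[]),([],[9,10]),([8],[11]),([10],[]),([11],[]),([],[13,14]),([12],[15]),([14],[]),([15],[])],([],[]))
/-- One block of a generator. -/
def b0_19 : Blk := (20,[([],[1,2]),([0],[3]),([2],[]),([3],[]),([],[5,6]),([4],[7]),([6],[]),([7],[]),([],[9,10]),([8],[11]),([10],[]),([11],[]),([],[13,14]),([12],[15]),([14],[]),([15],[])],([],[]))
/-- One block of a generator. -/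
def b0_20 : Blk := (19,[([1,3],[]),([],[0,2]),([2],[]),([3],[]),([5,7],[]),([],[4,6]),([6],[]),([7],[]),([9,11],[]),([],[8,10]),([10],[]),([11],[]),([13,15],[]),([],[12,14]),([14],[]),([15],[])],([],[]))
/-- One block of a generator. -/
def b0_21 : Blk := (21,[([],[1,2]),([0],[3]),([2],[]),([3],[]),([],[5,6]),([4],[7]),([6],[]),([7],[]),([],[9,10]),([8],[11]),([10],[]),([11],[]),([],[13,14]),([12],[15]),([14],[]),([15],[])],([],[]))
/-- One block of a generator. -/
def b0_22 : Blk := (22,[([],[1,2]),([0],[3]),([2],[]),([3],[]),([],[5,6]),([4],[7]),([6],[]),([7],[]),([],[9,10]),([8],[11]),([10],[]),([11],[]),([],[13,14]),([12],[15]),([14],[]),([15],[])],([],[]))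
/-- One block of a generator. -/
def b0_23 : Blk := (23,[([0,2],[]),([1,3],[]),([],[3]),([2],[]),([4,6],[]),([5,7],[]),([],[7]),([6],[]),([8,10],[]),([9,11],[]),([],[11]),([10],[]),([12,14],[]),([13,15],[]),([],[15]),([14],[])],([],[]))
/-- One block of a generator. -/
def b0_24 : Blk := (25,[([],[1,2]),([0],[3]),([2],[]),([3],[]),([],[5,6]),([4],[7]),([6],[]),([7],[]),([],[9,10]),([8],[11]),([10],[]),([11],[]),([],[13,14]),([12],[15]),([14],[]),([15],[])],([],[]))
/-- One block of a generator. -/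
def b0_25 : Blk := (24,[([1,3],[]),([],[0,2]),([2],[]),([3],[]),([5,7],[]),([],[4,6]),([6],[]),([7],[]),([9,11],[]),([],[8,10]),([10],[]),([11],[]),([13,15],[]),([],[12,14]),([14],[]),([15],[])],([],[]))
/-- One block of a generator. -/
def b0_26 : Blk := (26,[([0,2],[]),([1,3],[]),([],[3]),([2],[]),([4,6],[]),([5,7],[]),([],[7]),([6],[]),([8,10],[]),([9,11],[]),([],[11]),([10],[]),([12,14],[]),([13,15],[]),([],[15]),([14],[])],([],[]))
/-- One block of a generator. -/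
def b0_27 : Blk := (27,[([0,2],[]),([1,3],[]),([],[3]),([2],[]),([4,6],[]),([5,7],[]),([],[7]),([6],[]),([8,10],[]),([9,11],[]),([],[11]),([10],[]),([12,14],[]),([13,15],[]),([],[15]),([14],[])],([],[]))
/-- The blocks of a generator. -/
def g0 : List Blk := [b0_0,b0_1,b0_2,b0_3,b0_4,b0_5,b0_6,b0_7,b0_8,b0_9,b0_10,b0_11,b0_12,b0_13,b0_14,b0_15,b0_16,b0_17,b0_18,b0_19,b0_20,b0_21,b0_22,b0_23,b0_24,b0_25,b0_26,b0_27]
/-- One block of a generator. -/
def b1_0 : Blk := (2,[([],[1]),([0],[]),([1,2],[]),([3],[0]),([],[5]),([4],[]),([5,6],[]),([7],[4]),([],[9]),([8],[]),([9,10],[]),([11],[8]),([],[13]),([12],[]),([13,14],[]),([15],[12])],([],[]))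
/-- One block of a generator. -/
def b1_1 : Blk := (1,[([],[1]),([0],[]),([1,2],[]),([3],[0]),([],[5]),([4],[]),([5,6],[]),([7],[4]),([],[9]),([8],[]),([9,10],[]),([11],[8]),([],[13]),([12],[]),([13,14],[]),([15],[12])],([],[]))
/-- One block of a generator. -/
def b1_2 : Blk := (0,[([1],[]),([],[0]),([0,2],[]),([1,3],[]),([5],[]),([],[4]),([4,6],[]),([5,7],[]),([9],[]),([],[8]),([8,10],[]),([9,11],[]),([13],[]),([],[12]),([12,14],[]),([13,15],[])],([],[]))
/-- One block of a generator. -/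
def b1_3 : Blk := (3,[([0],[]),([1],[]),([],[1,3]),([0,2],[]),([4],[]),([5],[]),([],[5,7]),([4,6],[]),([8],[]),([9],[]),([],[9,11]),([8,10],[]),([12],[]),([13],[]),([],[13,15]),([12,14],[])],([],[]))
/-- One block of a generator. -/
def b1_4 : Blk := (5,[([0],[]),([1],[]),([],[1,3]),([0,2],[]),([4],[]),([5],[]),([],[5,7]),([4,6],[]),([8],[]),([9],[]),([],[9,11]),([8,10],[]),([12],[]),([13],[]),([],[13,15]),([12,14],[])],([],[]))
/-- One block of a generator. -/
def b1_5 : Blk := (4,[([0],[]),([1],[]),([3],[0]),([],[1,2]),([4],[]),([5],[]),([7],[4]),([],[5,6]),([8],[]),([9],[]),([11],[8]),([],[9,10]),([12],[]),([13],[]),([15],[12]),([],[13,14])],([],[]))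
/-- One block of a generator. -/
def b1_6 : Blk := (8,[([],[1]),([0],[]),([1,2],[]),([3],[0]),([],[5]),([4],[]),([5,6],[]),([7],[4]),([],[9]),([8],[]),([9,10],[]),([11],[8]),([],[13]),([12],[]),([13,14],[]),([15],[12])],([],[]))
/-- One block of a generator. -/
def b1_7 : Blk := (7,[([],[1]),([0],[]),([1,2],[]),([3],[0]),([],[5]),([4],[]),([5,6],[]),([7],[4]),([],[9]),([8],[]),([9,10],[]),([11],[8]),([],[13]),([12],[]),([13,14],[]),([15],[12])],([],[]))
/-- One block of a generator. -/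
def b1_8 : Blk := (6,[([1],[]),([],[0]),([0,2],[]),([1,3],[]),([5],[]),([],[4]),([4,6],[]),([5,7],[]),([9],[]),([],[8]),([8,10],[]),([9,11],[]),([13],[]),([],[12]),([12,14],[]),([13,15],[])],([],[]))
/-- One block of a generator. -/
def b1_9 : Blk := (9,[([],[1]),([0],[]),([1,2],[]),([3],[0]),([],[5]),([4],[]),([5,6],[]),([7],[4]),([],[9]),([8],[]),([9,10],[]),([11],[8]),([],[13]),([12],[]),([13,14],[]),([15],[12])],([],[]))
/-- One block of a generator. -/
def b1_10 : Blk := (10,[([0],[]),([1],[]),([],[1,3]),([0,2],[]),([4],[]),([5],[]),([],[5,7]),([4,6],[]),([8],[]),([9],[]),([],[9,11]),([8,10],[]),([12],[]),([13],[]),([],[13,15]),([12,14],[])],([],[]))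
/-- One block of a generator. -/
def b1_11 : Blk := (11,[([],[1]),([0],[]),([1,2],[]),([3],[0]),([],[5]),([4],[]),([5,6],[]),([7],[4]),([],[9]),([8],[]),([9,10],[]),([11],[8]),([],[13]),([12],[]),([13,14],[]),([15],[12])],([],[]))
/-- One block of a generator. -/
def b1_12 : Blk := (14,[([],[1]),([0],[]),([1,2],[]),([3],[0]),([],[5]),([4],[]),([5,6],[]),([7],[4]),([],[9]),([8],[]),([9,10],[]),([11],[8]),([],[13]),([12],[]),([13,14],[]),([15],[12])],([],[]))
/-- One block of a generator. -/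
def b1_13 : Blk := (13,[([],[1]),([0],[]),([1,2],[]),([3],[0]),([],[5]),([4],[]),([5,6],[]),([7],[4]),([],[9]),([8],[]),([9,10],[]),([11],[8]),([],[13]),([12],[]),([13,14],[]),([15],[12])],([],[]))
/-- One block of a generator. -/
def b1_14 : Blk := (12,[([1],[]),([],[0]),([0,2],[]),([1,3],[]),([5],[]),([],[4]),([4,6],[]),([5,7],[]),([9],[]),([],[8]),([8,10],[]),([9,11],[]),([13],[]),([],[12]),([12,14],[]),([13,15],[])],([],[]))
/-- One block of a generator. -/
def b1_15 : Blk := (15,[([],[1]),([0],[]),([1,2],[]),([3],[0]),([],[5]),([4],[]),([5,6],[]),([7],[4]),([],[9]),([8],[]),([9,10],[]),([11],[8]),([],[13]),([12],[]),([13,14],[]),([15],[12])],([],[]))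
/-- One block of a generator. -/
def b1_16 : Blk := (16,[([0],[]),([1],[]),([],[1,3]),([0,2],[]),([4],[]),([5],[]),([],[5,7]),([4,6],[]),([8],[]),([9],[]),([],[9,11]),([8,10],[]),([12],[]),([13],[]),([],[13,15]),([12,14],[])],([],[]))
/-- One block of a generator. -/
def b1_17 : Blk := (17,[([],[1]),([0],[]),([1,2],[]),([3],[0]),([],[5]),([4],[]),([5,6],[]),([7],[4]),([],[9]),([8],[]),([9,10],[]),([11],[8]),([],[13]),([12],[]),([13,14],[]),([15],[12])],([],[]))
/-- One block of a generator. -/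
def b1_18 : Blk := (18,[([0],[]),([1],[]),([],[1,3]),([0,2],[]),([4],[]),([5],[]),([],[5,7]),([4,6],[]),([8],[]),([9],[]),([],[9,11]),([8,10],[]),([12],[]),([13],[]),([],[13,15]),([12,14],[])],([],[]))
/-- One block of a generator. -/
def b1_19 : Blk := (19,[([0],[]),([1],[]),([],[1,3]),([0,2],[]),([4],[]),([5],[]),([],[5,7]),([4,6],[]),([8],[]),([9],[]),([],[9,11]),([8,10],[]),([12],[]),([13],[]),([],[13,15]),([12,14],[])],([],[]))
/-- One block of a generator. -/
def b1_20 : Blk := (21,[([0],[]),([1],[]),([],[1,3]),([0,2],[]),([4],[]),([5],[]),([],[5,7]),([4,6],[]),([8],[]),([9],[]),([],[9,11]),([8,10],[]),([12],[]),([13],[]),([],[13,15]),([12,14],[])],([],[]))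
/-- One block of a generator. -/
def b1_21 : Blk := (20,[([0],[]),([1],[]),([3],[0]),([],[1,2]),([4],[]),([5],[]),([7],[4]),([],[5,6]),([8],[]),([9],[]),([11],[8]),([],[9,10]),([12],[]),([13],[]),([15],[12]),([],[13,14])],([],[]))
/-- One block of a generator. -/
def b1_22 : Blk := (22,[([0],[]),([1],[]),([],[1,3]),([0,2],[]),([4],[]),([5],[]),([],[5,7]),([4,6],[]),([8],[]),([9],[]),([],[9,11]),([8,10],[]),([12],[]),([13],[]),([],[13,15]),([12,14],[])],([],[]))
/-- One block of a generator. -/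
def b1_23 : Blk := (23,[([],[1]),([0],[]),([1,2],[]),([3],[0]),([],[5]),([4],[]),([5,6],[]),([7],[4]),([],[9]),([8],[]),([9,10],[]),([11],[8]),([],[13]),([12],[]),([13,14],[]),([15],[12])],([],[]))
/-- One block of a generator. -/
def b1_24 : Blk := (26,[([],[1]),([0],[]),([1,2],[]),([3],[0]),([],[5]),([4],[]),([5,6],[]),([7],[4]),([],[9]),([8],[]),([9,10],[]),([11],[8]),([],[13]),([12],[]),([13,14],[]),([15],[12])],([],[]))
/-- One block of a generator. -/
def b1_25 : Blk := (25,[([],[1]),([0],[]),([1,2],[]),([3],[0]),([],[5]),([4],[]),([5,6],[]),([7],[4]),([],[9]),([8],[]),([9,10],[]),([11],[8]),([],[13]),([12],[]),([13,14],[]),([15],[12])],([],[]))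
/-- One block of a generator. -/
def b1_26 : Blk := (24,[([1],[]),([],[0]),([0,2],[]),([1,3],[]),([5],[]),([],[4]),([4,6],[]),([5,7],[]),([9],[]),([],[8]),([8,10],[]),([9,11],[]),([13],[]),([],[12]),([12,14],[]),([13,15],[])],([],[]))
/-- One block of a generator. -/
def b1_27 : Blk := (27,[([],[1]),([0],[]),([1,2],[]),([3],[0]),([],[5]),([4],[]),([5,6],[]),([7],[4]),([],[9]),([8],[]),([9,10],[]),([11],[8]),([],[13]),([12],[]),([13,14],[]),([15],[12])],([],[]))
/-- The blocks of a generator. -/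
def g1 : List Blk := [b1_0,b1_1,b1_2,b1_3,b1_4,b1_5,b1_6,b1_7,b1_8,b1_9,b1_10,b1_11,b1_12,b1_13,b1_14,b1_15,b1_16,b1_17,b1_18,b1_19,b1_20,b1_21,b1_22,b1_23,b1_24,b1_25,b1_26,b1_27]
/-- One block of a generator. -/
def b2_0 : Blk := (3,[([7],[1,2,4,6]),([0],[3,5,6,7]),([2,6],[]),([3,7],[]),([4,6],[]),([5,7],[]),([],[7]),([6],[]),([15],[9,10,12,14]),([8],[11,13,14,15]),([10,14],[]),([11,15],[]),([12,14],[]),([13,15],[]),([],[15]),([14],[])],([],[]))
/-- One block of a generator. -/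
def b2_1 : Blk := (4,[([7],[1,2,4,6]),([0],[3,5,6,7]),([2,6],[]),([3,7],[]),([4,6],[]),([5,7],[]),([],[7]),([6],[]),([15],[9,10,12,14]),([8],[11,13,14,15]),([10,14],[]),([11,15],[]),([12,14],[]),([13,15],[]),([],[15]),([14],[])],([],[]))
/-- One block of a generator. -/
def b2_2 : Blk := (2,[([7],[1,2,4,6]),([0],[3,5,6,7]),([2,6],[]),([3,7],[]),([4,6],[]),([5,7],[]),([],[7]),([6],[]),([15],[9,10,12,14]),([8],[11,13,14,15]),([10,14],[]),([11,15],[]),([12,14],[]),([13,15],[]),([],[15]),([14],[])],([],[]))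
/-- One block of a generator. -/
def b2_3 : Blk := (0,[([1,3,5,6,7],[]),([7],[0,2,4,6]),([2],[7]),([3,6],[]),([4],[7]),([5,6],[]),([7],[]),([],[6]),([9,11,13,14,15],[]),([15],[8,10,12,14]),([10],[15]),([11,14],[]),([12],[15]),([13,14],[]),([15],[]),([],[14])],([],[]))
/-- One block of a generator. -/
def b2_4 : Blk := (1,[([1,3,5,6,7],[]),([7],[0,2,4,6]),([2],[7]),([3,6],[]),([4],[7]),([5,6],[]),([7],[]),([],[6]),([9,11,13,14,15],[]),([15],[8,10,12,14]),([10],[15]),([11,14],[]),([12],[15]),([13,14],[]),([15],[]),([],[14])],([],[]))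
/-- One block of a generator. -/
def b2_5 : Blk := (5,[([0,2,4,6],[7]),([1,3,5,6,7],[]),([],[3,6]),([2],[7]),([],[5,6]),([4],[7]),([6],[]),([7],[]),([8,10,12,14],[15]),([9,11,13,14,15],[]),([],[11,14]),([10],[15]),([],[13,14]),([12],[15]),([14],[]),([15],[])],([],[]))
/-- One block of a generator. -/
def b2_6 : Blk := (6,[([0,2,4,6],[7]),([1,3,5,6,7],[]),([],[3,6]),([2],[7]),([],[5,6]),([4],[7]),([6],[]),([7],[]),([8,10,12,14],[15]),([9,11,13,14,15],[]),([],[11,14]),([10],[15]),([],[13,14]),([12],[15]),([14],[]),([15],[])],([],[]))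
/-- One block of a generator. -/
def b2_7 : Blk := (7,[([0,2,4,6],[7]),([1,3,5,6,7],[]),([],[3,6]),([2],[7]),([],[5,6]),([4],[7]),([6],[]),([7],[]),([8,10,12,14],[15]),([9,11,13,14,15],[]),([],[11,14]),([10],[15]),([],[13,14]),([12],[15]),([14],[]),([15],[])],([],[]))
/-- One block of a generator. -/
def b2_8 : Blk := (9,[([0,2,4,6],[7]),([1,3,5,6,7],[]),([],[3,6]),([2],[7]),([],[5,6]),([4],[7]),([6],[]),([7],[]),([8,10,12,14],[15]),([9,11,13,14,15],[]),([],[11,14]),([10],[15]),([],[13,14]),([12],[15]),([14],[]),([15],[])],([],[]))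
/-- One block of a generator. -/
def b2_9 : Blk := (8,[([0],[3,5,6,7]),([1,2,4,6],[7]),([3,7],[]),([],[2,6]),([5,7],[]),([],[4,6]),([6],[]),([7],[]),([8],[11,13,14,15]),([9,10,12,14],[15]),([11,15],[]),([],[10,14]),([13,15],[]),([],[12,14]),([14],[]),([15],[])],([],[]))
/-- One block of a generator. -/
def b2_10 : Blk := (10,[([7],[1,2,4,6]),([0],[3,5,6,7]),([2,6],[]),([3,7],[]),([4,6],[]),([5,7],[]),([],[7]),([6],[]),([15],[9,10,12,14]),([8],[11,13,14,15]),([10,14],[]),([11,15],[]),([12,14],[]),([13,15],[]),([],[15]),([14],[])],([7,15],[6]))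
/-- One block of a generator. -/
def b2_11 : Blk := (11,[([0,2,4,6],[7]),([1,3,5,6,7],[]),([],[3,6]),([2],[7]),([],[5,6]),([4],[7]),([6],[]),([7],[]),([8,10,12,14],[15]),([9,11,13,14,15],[]),([],[11,14]),([10],[15]),([],[13,14]),([12],[15]),([14],[]),([15],[])],([7,13,15],[4,4,6,12]))
/-- One block of a generator. -/
def b2_12 : Blk := (12,[([0,2,4,6],[7]),([1,3,5,6,7],[]),([],[3,6]),([2],[7]),([],[5,6]),([4],[7]),([6],[]),([7],[]),([8,10,12,14],[15]),([9,11,13,14,15],[]),([],[11,14]),([10],[15]),([],[13,14]),([12],[15]),([14],[]),([15],[])],([],[]))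
/-- One block of a generator. -/
def b2_13 : Blk := (13,[([0,2,4,6],[7]),([1,3,5,6,7],[]),([],[3,6]),([2],[7]),([],[5,6]),([4],[7]),([6],[]),([7],[]),([8,10,12,14],[15]),([9,11,13,14,15],[]),([],[11,14]),([10],[15]),([],[13,14]),([12],[15]),([14],[]),([15],[])],([],[]))
/-- One block of a generator. -/
def b2_14 : Blk := (15,[([0,2,4,6],[7]),([1,3,5,6,7],[]),([],[3,6]),([2],[7]),([],[5,6]),([4],[7]),([6],[]),([7],[]),([8,10,12,14],[15]),([9,11,13,14,15],[]),([],[11,14]),([10],[15]),([],[13,14]),([12],[15]),([14],[]),([15],[])],([],[]))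
/-- One block of a generator. -/
def b2_15 : Blk := (14,[([0],[3,5,6,7]),([1,2,4,6],[7]),([3,7],[]),([],[2,6]),([5,7],[]),([],[4,6]),([6],[]),([7],[]),([8],[11,13,14,15]),([9,10,12,14],[15]),([11,15],[]),([],[10,14]),([13,15],[]),([],[12,14]),([14],[]),([15],[])],([],[]))
/-- One block of a generator. -/
def b2_16 : Blk := (16,[([7],[1,2,4,6]),([0],[3,5,6,7]),([2,6],[]),([3,7],[]),([4,6],[]),([5,7],[]),([],[7]),([6],[]),([15],[9,10,12,14]),([8],[11,13,14,15]),([10,14],[]),([11,15],[]),([12,14],[]),([13,15],[]),([],[15]),([14],[])],([7,14,15],[]))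
/-- One block of a generator. -/
def b2_17 : Blk := (17,[([0,2,4,6],[7]),([1,3,5,6,7],[]),([],[3,6]),([2],[7]),([],[5,6]),([4],[7]),([6],[]),([7],[]),([8,10,12,14],[15]),([9,11,13,14,15],[]),([],[11,14]),([10],[15]),([],[13,14]),([12],[15]),([14],[]),([15],[])],([5,7,13,13,14,15],[4]))
/-- One block of a generator. -/
def b2_18 : Blk := (21,[([0,2,4,6],[7]),([1,3,5,6,7],[]),([],[3,6]),([2],[7]),([],[5,6]),([4],[7]),([6],[]),([7],[]),([8,10,12,14],[15]),([9,11,13,14,15],[]),([],[11,14]),([10],[15]),([],[13,14]),([12],[15]),([14],[]),([15],[])],([],[]))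
/-- One block of a generator. -/
def b2_19 : Blk := (19,[([7],[1,2,4,6]),([0],[3,5,6,7]),([2,6],[]),([3,7],[]),([4,6],[]),([5,7],[]),([],[7]),([6],[]),([15],[9,10,12,14]),([8],[11,13,14,15]),([10,14],[]),([11,15],[]),([12,14],[]),([13,15],[]),([],[15]),([14],[])],([],[]))
/-- One block of a generator. -/
def b2_20 : Blk := (20,[([7],[1,2,4,6]),([0],[3,5,6,7]),([2,6],[]),([3,7],[]),([4,6],[]),([5,7],[]),([],[7]),([6],[]),([15],[9,10,12,14]),([8],[11,13,14,15]),([10,14],[]),([11,15],[]),([12,14],[]),([13,15],[]),([],[15]),([14],[])],([],[]))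
/-- One block of a generator. -/
def b2_21 : Blk := (18,[([0],[3,5,6,7]),([1,2,4,6],[7]),([3,7],[]),([],[2,6]),([5,7],[]),([],[4,6]),([6],[]),([7],[]),([8],[11,13,14,15]),([9,10,12,14],[15]),([11,15],[]),([],[10,14]),([13,15],[]),([],[12,14]),([14],[]),([15],[])],([],[]))
/-- One block of a generator. -/
def b2_22 : Blk := (22,[([7],[1,2,4,6]),([0],[3,5,6,7]),([2,6],[]),([3,7],[]),([4,6],[]),([5,7],[]),([],[7]),([6],[]),([15],[9,10,12,14]),([8],[11,13,14,15]),([10,14],[]),([11,15],[]),([12,14],[]),([13,15],[]),([],[15]),([14],[])],([7,15],[]))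
/-- One block of a generator. -/
def b2_23 : Blk := (23,[([0,2,4,6],[7]),([1,3,5,6,7],[]),([],[3,6]),([2],[7]),([],[5,6]),([4],[7]),([6],[]),([7],[]),([8,10,12,14],[15]),([9,11,13,14,15],[]),([],[11,14]),([10],[15]),([],[13,14]),([12],[15]),([14],[]),([15],[])],([5,7,13,15],[4,12]))
/-- One block of a generator. -/
def b2_24 : Blk := (24,[([0,2,4,6],[7]),([1,3,5,6,7],[]),([],[3,6]),([2],[7]),([],[5,6]),([4],[7]),([6],[]),([7],[]),([8,10,12,14],[15]),([9,11,13,14,15],[]),([],[11,14]),([10],[15]),([],[13,14]),([12],[15]),([14],[]),([15],[])],([],[]))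
/-- One block of a generator. -/
def b2_25 : Blk := (25,[([0,2,4,6],[7]),([1,3,5,6,7],[]),([],[3,6]),([2],[7]),([],[5,6]),([4],[7]),([6],[]),([7],[]),([8,10,12,14],[15]),([9,11,13,14,15],[]),([],[11,14]),([10],[15]),([],[13,14]),([12],[15]),([14],[]),([15],[])],([],[]))
/-- One block of a generator. -/
def b2_26 : Blk := (27,[([0,2,4,6],[7]),([1,3,5,6,7],[]),([],[3,6]),([2],[7]),([],[5,6]),([4],[7]),([6],[]),([7],[]),([8,10,12,14],[15]),([9,11,13,14,15],[]),([],[11,14]),([10],[15]),([],[13,14]),([12],[15]),([14],[]),([15],[])],([],[]))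
/-- One block of a generator. -/
def b2_27 : Blk := (26,[([0],[3,5,6,7]),([1,2,4,6],[7]),([3,7],[]),([],[2,6]),([5,7],[]),([],[4,6]),([6],[]),([7],[]),([8],[11,13,14,15]),([9,10,12,14],[15]),([11,15],[]),([],[10,14]),([13,15],[]),([],[12,14]),([14],[]),([15],[])],([],[]))
/-- The blocks of a generator. -/
def g2 : List Blk := [b2_0,b2_1,b2_2,b2_3,b2_4,b2_5,b2_6,b2_7,b2_8,b2_9,b2_10,b2_11,b2_12,b2_13,b2_14,b2_15,b2_16,b2_17,b2_18,b2_19,b2_20,b2_21,b2_22,b2_23,b2_24,b2_25,b2_26,b2_27]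
/-- One block of a generator. -/
def b3_0 : Blk := (6,[([],[1]),([0],[]),([],[3]),([2],[]),([1,4],[]),([5],[0]),([3,6],[]),([7],[2]),([],[9]),([8],[]),([],[11]),([10],[]),([9,12],[]),([13],[8]),([11,14],[]),([15],[10])],([],[4,6]))
/-- One block of a generator. -/
def b3_1 : Blk := (7,[([],[1]),([0],[]),([],[3]),([2],[]),([1,4],[]),([5],[0]),([3,6],[]),([7],[2]),([],[9]),([8],[]),([],[11]),([10],[]),([9,12],[]),([13],[8]),([11,14],[]),([15],[10])],([],[5,6,7]))
/-- One block of a generator. -/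
def b3_2 : Blk := (8,[([],[1]),([0],[]),([],[3]),([2],[]),([1,4],[]),([5],[0]),([3,6],[]),([7],[2]),([],[9]),([8],[]),([],[11]),([10],[]),([9,12],[]),([13],[8]),([11,14],[]),([15],[10])],([],[4,5,6]))
/-- One block of a generator. -/
def b3_3 : Blk := (3,[([],[1]),([0],[]),([],[3]),([2],[]),([1,4],[]),([5],[0]),([3,6],[]),([7],[2]),([],[9]),([8],[]),([],[11]),([10],[]),([9,12],[]),([13],[8]),([11,14],[]),([15],[10])],([1],[]))
/-- One block of a generator. -/
def b3_4 : Blk := (4,[([],[1]),([0],[]),([],[3]),([2],[]),([1,4],[]),([5],[0]),([3,6],[]),([7],[2]),([],[9]),([8],[]),([],[11]),([10],[]),([9,12],[]),([13],[8]),([11,14],[]),([15],[10])],([],[0,2]))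
/-- One block of a generator. -/
def b3_5 : Blk := (5,[([],[1]),([0],[]),([],[3]),([2],[]),([1,4],[]),([5],[0]),([3,6],[]),([7],[2]),([],[9]),([8],[]),([],[11]),([10],[]),([9,12],[]),([13],[8]),([11,14],[]),([15],[10])],([],[3]))
/-- One block of a generator. -/
def b3_6 : Blk := (0,[([1],[]),([],[0]),([3],[]),([],[2]),([0,4],[]),([1,5],[]),([2,6],[]),([3,7],[]),([9],[]),([],[8]),([11],[]),([],[10]),([8,12],[]),([9,13],[]),([10,14],[]),([11,15],[])],([0,2,4,6],[]))
/-- One block of a generator. -/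
def b3_7 : Blk := (1,[([1],[]),([],[0]),([3],[]),([],[2]),([0,4],[]),([1,5],[]),([2,6],[]),([3,7],[]),([9],[]),([],[8]),([11],[]),([],[10]),([8,12],[]),([9,13],[]),([10,14],[]),([11,15],[])],([1,2,3,5,6,7],[]))
/-- One block of a generator. -/
def b3_8 : Blk := (2,[([1],[]),([],[0]),([3],[]),([],[2]),([0,4],[]),([1,5],[]),([2,6],[]),([3,7],[]),([9],[]),([],[8]),([11],[]),([],[10]),([8,12],[]),([9,13],[]),([10,14],[]),([11,15],[])],([0,1,2,4,5,6],[]))
/-- One block of a generator. -/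
def b3_9 : Blk := (9,[([0],[]),([1],[]),([2],[]),([3],[]),([],[1,5]),([0,4],[]),([],[3,7]),([2,6],[]),([8],[]),([9],[]),([10],[]),([11],[]),([],[9,13]),([8,12],[]),([],[11,15]),([10,14],[])],([],[]))
/-- One block of a generator. -/
def b3_10 : Blk := (10,[([0],[]),([1],[]),([2],[]),([3],[]),([],[1,5]),([0,4],[]),([],[3,7]),([2,6],[]),([8],[]),([9],[]),([10],[]),([11],[]),([],[9,13]),([8,12],[]),([],[11,15]),([10,14],[])],([],[]))
/-- One block of a generator. -/
def b3_11 : Blk := (15,[([0],[]),([1],[]),([2],[]),([3],[]),([],[1,5]),([0,4],[]),([],[3,7]),([2,6],[]),([8],[]),([9],[]),([10],[]),([11],[]),([],[9,13]),([8,12],[]),([],[11,15]),([10,14],[])],([],[]))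
/-- One block of a generator. -/
def b3_12 : Blk := (12,[([],[1]),([0],[]),([],[3]),([2],[]),([1,4],[]),([5],[0]),([3,6],[]),([7],[2]),([],[9]),([8],[]),([],[11]),([10],[]),([9,12],[]),([13],[8]),([11,14],[]),([15],[10])],([0,2],[1,3,9,11]))
/-- One block of a generator. -/
def b3_13 : Blk := (13,[([],[1]),([0],[]),([],[3]),([2],[]),([1,4],[]),([5],[0]),([3,6],[]),([7],[2]),([],[9]),([8],[]),([],[11]),([10],[]),([9,12],[]),([13],[8]),([11,14],[]),([15],[10])],([0,1,2,2,8,10],[11]))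
/-- One block of a generator. -/
def b3_14 : Blk := (14,[([],[1]),([0],[]),([],[3]),([2],[]),([1,4],[]),([5],[0]),([3,6],[]),([7],[2]),([],[9]),([8],[]),([],[11]),([10],[]),([9,12],[]),([13],[8]),([11,14],[]),([15],[10])],([0,0,2,8],[3,9,11]))
/-- One block of a generator. -/
def b3_15 : Blk := (11,[([0],[]),([1],[]),([2],[]),([3],[]),([5],[0]),([],[1,4]),([7],[2]),([],[3,6]),([8],[]),([9],[]),([10],[]),([11],[]),([13],[8]),([],[9,12]),([15],[10]),([],[11,14])],([],[]))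
/-- One block of a generator. -/
def b3_16 : Blk := (18,[([],[1]),([0],[]),([],[3]),([2],[]),([1,4],[]),([5],[0]),([3,6],[]),([7],[2]),([],[9]),([8],[]),([],[11]),([10],[]),([9,12],[]),([13],[8]),([11,14],[]),([15],[10])],([],[]))
/-- One block of a generator. -/
def b3_17 : Blk := (17,[([],[1]),([0],[]),([],[3]),([2],[]),([1,4],[]),([5],[0]),([3,6],[]),([7],[2]),([],[9]),([8],[]),([],[11]),([10],[]),([9,12],[]),([13],[8]),([11,14],[]),([15],[10])],([],[]))
/-- One block of a generator. -/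
def b3_18 : Blk := (16,[([1],[]),([],[0]),([3],[]),([],[2]),([0,4],[]),([1,5],[]),([2,6],[]),([3,7],[]),([9],[]),([],[8]),([11],[]),([],[10]),([8,12],[]),([9,13],[]),([10,14],[]),([11,15],[])],([],[]))
/-- One block of a generator. -/
def b3_19 : Blk := (19,[([0],[]),([1],[]),([2],[]),([3],[]),([],[1,5]),([0,4],[]),([],[3,7]),([2,6],[]),([8],[]),([9],[]),([10],[]),([11],[]),([],[9,13]),([8,12],[]),([],[11,15]),([10,14],[])],([0,4,8],[5,9,13,13]))
/-- One block of a generator. -/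
def b3_20 : Blk := (20,[([0],[]),([1],[]),([2],[]),([3],[]),([],[1,5]),([0,4],[]),([],[3,7]),([2,6],[]),([8],[]),([9],[]),([10],[]),([11],[]),([],[9,13]),([8,12],[]),([],[11,15]),([10,14],[])],([1,3,4,5,6,7,8,9,10,11,12,12,14,14],[]))
/-- One block of a generator. -/
def b3_21 : Blk := (21,[([0],[]),([1],[]),([2],[]),([3],[]),([],[1,5]),([0,4],[]),([],[3,7]),([2,6],[]),([8],[]),([9],[]),([10],[]),([11],[]),([],[9,13]),([8,12],[]),([],[11,15]),([10,14],[])],([7,11,15,15],[2,6,10]))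
/-- One block of a generator. -/
def b3_22 : Blk := (22,[([0],[]),([1],[]),([2],[]),([3],[]),([],[1,5]),([0,4],[]),([],[3,7]),([2,6],[]),([8],[]),([9],[]),([10],[]),([11],[]),([],[9,13]),([8,12],[]),([],[11,15]),([10,14],[])],([],[]))
/-- One block of a generator. -/
def b3_23 : Blk := (27,[([0],[]),([1],[]),([2],[]),([3],[]),([],[1,5]),([0,4],[]),([],[3,7]),([2,6],[]),([8],[]),([9],[]),([10],[]),([11],[]),([],[9,13]),([8,12],[]),([],[11,15]),([10,14],[])],([],[]))
/-- One block of a generator. -/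
def b3_24 : Blk := (24,[([],[1]),([0],[]),([],[3]),([2],[]),([1,4],[]),([5],[0]),([3,6],[]),([7],[2]),([],[9]),([8],[]),([],[11]),([10],[]),([9,12],[]),([13],[8]),([11,14],[]),([15],[10])],([],[1,3,9,11]))
/-- One block of a generator. -/
def b3_25 : Blk := (25,[([],[1]),([0],[]),([],[3]),([2],[]),([1,4],[]),([5],[0]),([3,6],[]),([7],[2]),([],[9]),([8],[]),([],[11]),([10],[]),([9,12],[]),([13],[8]),([11,14],[]),([15],[10])],([0,2,8,10],[3,11]))
/-- One block of a generator. -/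
def b3_26 : Blk := (26,[([],[1]),([0],[]),([],[3]),([2],[]),([1,4],[]),([5],[0]),([3,6],[]),([7],[2]),([],[9]),([8],[]),([],[11]),([10],[]),([9,12],[]),([13],[8]),([11,14],[]),([15],[10])],([0,8],[1,3,9,11]))
/-- One block of a generator. -/
def b3_27 : Blk := (23,[([0],[]),([1],[]),([2],[]),([3],[]),([5],[0]),([],[1,4]),([7],[2]),([],[3,6]),([8],[]),([9],[]),([10],[]),([11],[]),([13],[8]),([],[9,12]),([15],[10]),([],[11,14])],([],[]))
/-- The blocks of a generator. -/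
def g3 : List Blk := [b3_0,b3_1,b3_2,b3_3,b3_4,b3_5,b3_6,b3_7,b3_8,b3_9,b3_10,b3_11,b3_12,b3_13,b3_14,b3_15,b3_16,b3_17,b3_18,b3_19,b3_20,b3_21,b3_22,b3_23,b3_24,b3_25,b3_26,b3_27]
/-- One block of a generator. -/
def b4_0 : Blk := (0,[([0,4,8,12],[13]),([1,5,9,12,13],[]),([2,6,10,14],[15]),([3,7,11,14,15],[]),([],[5,12]),([4],[13]),([],[7,14]),([6],[15]),([],[9,12]),([8],[13]),([],[11,14]),([10],[15]),([12],[]),([13],[]),([14],[]),([15],[])],([],[]))
/-- One block of a generator. -/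
def b4_1 : Blk := (1,[([0,4,8,12],[13]),([1,5,9,12,13],[]),([2,6,10,14],[15]),([3,7,11,14,15],[]),([],[5,12]),([4],[13]),([],[7,14]),([6],[15]),([],[9,12]),([8],[13]),([],[11,14]),([10],[15]),([12],[]),([13],[]),([14],[]),([15],[])],([],[]))
/-- One block of a generator. -/
def b4_2 : Blk := (2,[([0,4,8,12],[13]),([1,5,9,12,13],[]),([2,6,10,14],[15]),([3,7,11,14,15],[]),([],[5,12]),([4],[13]),([],[7,14]),([6],[15]),([],[9,12]),([8],[13]),([],[11,14]),([10],[15]),([12],[]),([13],[]),([14],[]),([15],[])],([],[]))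
/-- One block of a generator. -/
def b4_3 : Blk := (3,[([0,4,8,12],[13]),([1,5,9,12,13],[]),([2,6,10,14],[15]),([3,7,11,14,15],[]),([],[5,12]),([4],[13]),([],[7,14]),([6],[15]),([],[9,12]),([8],[13]),([],[11,14]),([10],[15]),([12],[]),([13],[]),([14],[]),([15],[])],([],[]))
/-- One block of a generator. -/
def b4_4 : Blk := (4,[([0,4,8,12],[13]),([1,5,9,12,13],[]),([2,6,10,14],[15]),([3,7,11,14,15],[]),([],[5,12]),([4],[13]),([],[7,14]),([6],[15]),([],[9,12]),([8],[13]),([],[11,14]),([10],[15]),([12],[]),([13],[]),([14],[]),([15],[])],([],[]))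
/-- One block of a generator. -/
def b4_5 : Blk := (5,[([0,4,8,12],[13]),([1,5,9,12,13],[]),([2,6,10,14],[15]),([3,7,11,14,15],[]),([],[5,12]),([4],[13]),([],[7,14]),([6],[15]),([],[9,12]),([8],[13]),([],[11,14]),([10],[15]),([12],[]),([13],[]),([14],[]),([15],[])],([],[]))
/-- One block of a generator. -/
def b4_6 : Blk := (12,[([1,5,9,12,13],[]),([13],[0,4,8,12]),([3,7,11,14,15],[]),([15],[2,6,10,14]),([4],[13]),([5,12],[]),([6],[15]),([7,14],[]),([8],[13]),([9,12],[]),([10],[15]),([11,14],[]),([13],[]),([],[12]),([15],[]),([],[14])],([],[]))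
/-- One block of a generator. -/
def b4_7 : Blk := (13,[([1,5,9,12,13],[]),([13],[0,4,8,12]),([3,7,11,14,15],[]),([15],[2,6,10,14]),([4],[13]),([5,12],[]),([6],[15]),([7,14],[]),([8],[13]),([9,12],[]),([10],[15]),([11,14],[]),([13],[]),([],[12]),([15],[]),([],[14])],([],[]))
/-- One block of a generator. -/
def b4_8 : Blk := (14,[([1,5,9,12,13],[]),([13],[0,4,8,12]),([3,7,11,14,15],[]),([15],[2,6,10,14]),([4],[13]),([5,12],[]),([6],[15]),([7,14],[]),([8],[13]),([9,12],[]),([10],[15]),([11,14],[]),([13],[]),([],[12]),([15],[]),([],[14])],([],[]))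
/-- One block of a generator. -/
def b4_9 : Blk := (15,[([1,5,9,12,13],[]),([13],[0,4,8,12]),([3,7,11,14,15],[]),([15],[2,6,10,14]),([4],[13]),([5,12],[]),([6],[15]),([7,14],[]),([8],[13]),([9,12],[]),([10],[15]),([11,14],[]),([13],[]),([],[12]),([15],[]),([],[14])],([],[]))
/-- One block of a generator. -/
def b4_10 : Blk := (10,[([13],[1,4,8,12]),([0],[5,9,12,13]),([15],[3,6,10,14]),([2],[7,11,14,15]),([4,12],[]),([5,13],[]),([6,14],[]),([7,15],[]),([8,12],[]),([9,13],[]),([10,14],[]),([11,15],[]),([],[13]),([12],[]),([],[15]),([14],[])],([],[]))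
/-- One block of a generator. -/
def b4_11 : Blk := (11,[([13],[1,4,8,12]),([0],[5,9,12,13]),([15],[3,6,10,14]),([2],[7,11,14,15]),([4,12],[]),([5,13],[]),([6,14],[]),([7,15],[]),([8,12],[]),([9,13],[]),([10,14],[]),([11,15],[]),([],[13]),([12],[]),([],[15]),([14],[])],([],[]))
/-- One block of a generator. -/
def b4_12 : Blk := (6,[([13],[1,4,8,12]),([0],[5,9,12,13]),([15],[3,6,10,14]),([2],[7,11,14,15]),([4,12],[]),([5,13],[]),([6,14],[]),([7,15],[]),([8,12],[]),([9,13],[]),([10,14],[]),([11,15],[]),([],[13]),([12],[]),([],[15]),([14],[])],([],[]))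
/-- One block of a generator. -/
def b4_13 : Blk := (7,[([13],[1,4,8,12]),([0],[5,9,12,13]),([15],[3,6,10,14]),([2],[7,11,14,15]),([4,12],[]),([5,13],[]),([6,14],[]),([7,15],[]),([8,12],[]),([9,13],[]),([10,14],[]),([11,15],[]),([],[13]),([12],[]),([],[15]),([14],[])],([],[]))
/-- One block of a generator. -/
def b4_14 : Blk := (8,[([13],[1,4,8,12]),([0],[5,9,12,13]),([15],[3,6,10,14]),([2],[7,11,14,15]),([4,12],[]),([5,13],[]),([6,14],[]),([7,15],[]),([8,12],[]),([9,13],[]),([10,14],[]),([11,15],[]),([],[13]),([12],[]),([],[15]),([14],[])],([],[]))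
/-- One block of a generator. -/
def b4_15 : Blk := (9,[([13],[1,4,8,12]),([0],[5,9,12,13]),([15],[3,6,10,14]),([2],[7,11,14,15]),([4,12],[]),([5,13],[]),([6,14],[]),([7,15],[]),([8,12],[]),([9,13],[]),([10,14],[]),([11,15],[]),([],[13]),([12],[]),([],[15]),([14],[])],([],[]))
/-- One block of a generator. -/
def b4_16 : Blk := (22,[([13],[1,4,8,12]),([0],[5,9,12,13]),([15],[3,6,10,14]),([2],[7,11,14,15]),([4,12],[]),([5,13],[]),([6,14],[]),([7,15],[]),([8,12],[]),([9,13],[]),([10,14],[]),([11,15],[]),([],[13]),([12],[]),([],[15]),([14],[])],([],[]))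
/-- One block of a generator. -/
def b4_17 : Blk := (23,[([13],[1,4,8,12]),([0],[5,9,12,13]),([15],[3,6,10,14]),([2],[7,11,14,15]),([4,12],[]),([5,13],[]),([6,14],[]),([7,15],[]),([8,12],[]),([9,13],[]),([10,14],[]),([11,15],[]),([],[13]),([12],[]),([],[15]),([14],[])],([],[]))
/-- One block of a generator. -/
def b4_18 : Blk := (18,[([13],[1,4,8,12]),([0],[5,9,12,13]),([15],[3,6,10,14]),([2],[7,11,14,15]),([4,12],[]),([5,13],[]),([6,14],[]),([7,15],[]),([8,12],[]),([9,13],[]),([10,14],[]),([11,15],[]),([],[13]),([12],[]),([],[15]),([14],[])],([],[]))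
/-- One block of a generator. -/
def b4_19 : Blk := (19,[([13],[1,4,8,12]),([0],[5,9,12,13]),([15],[3,6,10,14]),([2],[7,11,14,15]),([4,12],[]),([5,13],[]),([6,14],[]),([7,15],[]),([8,12],[]),([9,13],[]),([10,14],[]),([11,15],[]),([],[13]),([12],[]),([],[15]),([14],[])],([],[]))
/-- One block of a generator. -/
def b4_20 : Blk := (20,[([13],[1,4,8,12]),([0],[5,9,12,13]),([15],[3,6,10,14]),([2],[7,11,14,15]),([4,12],[]),([5,13],[]),([6,14],[]),([7,15],[]),([8,12],[]),([9,13],[]),([10,14],[]),([11,15],[]),([],[13]),([12],[]),([],[15]),([14],[])],([],[]))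
/-- One block of a generator. -/
def b4_21 : Blk := (21,[([13],[1,4,8,12]),([0],[5,9,12,13]),([15],[3,6,10,14]),([2],[7,11,14,15]),([4,12],[]),([5,13],[]),([6,14],[]),([7,15],[]),([8,12],[]),([9,13],[]),([10,14],[]),([11,15],[]),([],[13]),([12],[]),([],[15]),([14],[])],([],[]))
/-- One block of a generator. -/
def b4_22 : Blk := (16,[([1,5,9,12,13],[]),([13],[0,4,8,12]),([3,7,11,14,15],[]),([15],[2,6,10,14]),([4],[13]),([5,12],[]),([6],[15]),([7,14],[]),([8],[13]),([9,12],[]),([10],[15]),([11,14],[]),([13],[]),([],[12]),([15],[]),([],[14])],([],[]))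
/-- One block of a generator. -/
def b4_23 : Blk := (17,[([1,5,9,12,13],[]),([13],[0,4,8,12]),([3,7,11,14,15],[]),([15],[2,6,10,14]),([4],[13]),([5,12],[]),([6],[15]),([7,14],[]),([8],[13]),([9,12],[]),([10],[15]),([11,14],[]),([13],[]),([],[12]),([15],[]),([],[14])],([],[]))
/-- One block of a generator. -/
def b4_24 : Blk := (24,[([0,4,8,12],[13]),([1,5,9,12,13],[]),([2,6,10,14],[15]),([3,7,11,14,15],[]),([],[5,12]),([4],[13]),([],[7,14]),([6],[15]),([],[9,12]),([8],[13]),([],[11,14]),([10],[15]),([12],[]),([13],[]),([14],[]),([15],[])],([],[]))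
/-- One block of a generator. -/
def b4_25 : Blk := (25,[([0,4,8,12],[13]),([1,5,9,12,13],[]),([2,6,10,14],[15]),([3,7,11,14,15],[]),([],[5,12]),([4],[13]),([],[7,14]),([6],[15]),([],[9,12]),([8],[13]),([],[11,14]),([10],[15]),([12],[]),([13],[]),([14],[]),([15],[])],([],[]))
/-- One block of a generator. -/
def b4_26 : Blk := (26,[([0,4,8,12],[13]),([1,5,9,12,13],[]),([2,6,10,14],[15]),([3,7,11,14,15],[]),([],[5,12]),([4],[13]),([],[7,14]),([6],[15]),([],[9,12]),([8],[13]),([],[11,14]),([10],[15]),([12],[]),([13],[]),([14],[]),([15],[])],([],[]))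
/-- One block of a generator. -/
def b4_27 : Blk := (27,[([0,4,8,12],[13]),([1,5,9,12,13],[]),([2,6,10,14],[15]),([3,7,11,14,15],[]),([],[5,12]),([4],[13]),([],[7,14]),([6],[15]),([],[9,12]),([8],[13]),([],[11,14]),([10],[15]),([12],[]),([13],[]),([14],[]),([15],[])],([],[]))
/-- The blocks of a generator. -/
def g4 : List Blk := [b4_0,b4_1,b4_2,b4_3,b4_4,b4_5,b4_6,b4_7,b4_8,b4_9,b4_10,b4_11,b4_12,b4_13,b4_14,b4_15,b4_16,b4_17,b4_18,b4_19,b4_20,b4_21,b4_22,b4_23,b4_24,b4_25,b4_26,b4_27]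
/-- One block of a generator. -/
def b5_0 : Blk := (0,[([0],[]),([1],[]),([2],[]),([3],[]),([4],[]),([5],[]),([6],[]),([7],[]),([],[1,9]),([0,8],[]),([],[3,11]),([2,10],[]),([],[5,13]),([4,12],[]),([],[7,15]),([6,14],[])],([],[]))
/-- One block of a generator. -/
def b5_1 : Blk := (1,[([0],[]),([1],[]),([2],[]),([3],[]),([4],[]),([5],[]),([6],[]),([7],[]),([],[1,9]),([0,8],[]),([],[3,11]),([2,10],[]),([],[5,13]),([4,12],[]),([],[7,15]),([6,14],[])],([],[]))
/-- One block of a generator. -/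
def b5_2 : Blk := (2,[([0],[]),([1],[]),([2],[]),([3],[]),([4],[]),([5],[]),([6],[]),([7],[]),([],[1,9]),([0,8],[]),([],[3,11]),([2,10],[]),([],[5,13]),([4,12],[]),([],[7,15]),([6,14],[])],([],[]))
/-- One block of a generator. -/
def b5_3 : Blk := (3,[([0],[]),([1],[]),([2],[]),([3],[]),([4],[]),([5],[]),([6],[]),([7],[]),([],[1,9]),([0,8],[]),([],[3,11]),([2,10],[]),([],[5,13]),([4,12],[]),([],[7,15]),([6,14],[])],([],[]))
/-- One block of a generator. -/
def b5_4 : Blk := (4,[([0],[]),([1],[]),([2],[]),([3],[]),([4],[]),([5],[]),([6],[]),([7],[]),([],[1,9]),([0,8],[]),([],[3,11]),([2,10],[]),([],[5,13]),([4,12],[]),([],[7,15]),([6,14],[])],([],[]))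
/-- One block of a generator. -/
def b5_5 : Blk := (5,[([0],[]),([1],[]),([2],[]),([3],[]),([4],[]),([5],[]),([6],[]),([7],[]),([],[1,9]),([0,8],[]),([],[3,11]),([2,10],[]),([],[5,13]),([4,12],[]),([],[7,15]),([6,14],[])],([],[]))
/-- One block of a generator. -/
def b5_6 : Blk := (6,[([0],[]),([1],[]),([2],[]),([3],[]),([4],[]),([5],[]),([6],[]),([7],[]),([],[1,9]),([0,8],[]),([],[3,11]),([2,10],[]),([],[5,13]),([4,12],[]),([],[7,15]),([6,14],[])],([],[]))
/-- One block of a generator. -/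
def b5_7 : Blk := (7,[([0],[]),([1],[]),([2],[]),([3],[]),([4],[]),([5],[]),([6],[]),([7],[]),([],[1,9]),([0,8],[]),([],[3,11]),([2,10],[]),([],[5,13]),([4,12],[]),([],[7,15]),([6,14],[])],([],[]))
/-- One block of a generator. -/
def b5_8 : Blk := (8,[([0],[]),([1],[]),([2],[]),([3],[]),([4],[]),([5],[]),([6],[]),([7],[]),([],[1,9]),([0,8],[]),([],[3,11]),([2,10],[]),([],[5,13]),([4,12],[]),([],[7,15]),([6,14],[])],([],[]))
/-- One block of a generator. -/
def b5_9 : Blk := (9,[([0],[]),([1],[]),([2],[]),([3],[]),([4],[]),([5],[]),([6],[]),([7],[]),([],[1,9]),([0,8],[]),([],[3,11]),([2,10],[]),([],[5,13]),([4,12],[]),([],[7,15]),([6,14],[])],([],[]))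
/-- One block of a generator. -/
def b5_10 : Blk := (22,[([1],[]),([],[0]),([3],[]),([],[2]),([5],[]),([],[4]),([7],[]),([],[6]),([0,8],[]),([1,9],[]),([2,10],[]),([3,11],[]),([4,12],[]),([5,13],[]),([6,14],[]),([7,15],[])],([],[]))
/-- One block of a generator. -/
def b5_11 : Blk := (23,[([1],[]),([],[0]),([3],[]),([],[2]),([5],[]),([],[4]),([7],[]),([],[6]),([0,8],[]),([1,9],[]),([2,10],[]),([3,11],[]),([4,12],[]),([5,13],[]),([6,14],[]),([7,15],[])],([],[]))
/-- One block of a generator. -/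
def b5_12 : Blk := (24,[([1],[]),([],[0]),([3],[]),([],[2]),([5],[]),([],[4]),([7],[]),([],[6]),([0,8],[]),([1,9],[]),([2,10],[]),([3,11],[]),([4,12],[]),([5,13],[]),([6,14],[]),([7,15],[])],([],[]))
/-- One block of a generator. -/
def b5_13 : Blk := (25,[([1],[]),([],[0]),([3],[]),([],[2]),([5],[]),([],[4]),([7],[]),([],[6]),([0,8],[]),([1,9],[]),([2,10],[]),([3,11],[]),([4,12],[]),([5,13],[]),([6,14],[]),([7,15],[])],([],[]))
/-- One block of a generator. -/
def b5_14 : Blk := (26,[([1],[]),([],[0]),([3],[]),([],[2]),([5],[]),([],[4]),([7],[]),([],[6]),([0,8],[]),([1,9],[]),([2,10],[]),([3,11],[]),([4,12],[]),([5,13],[]),([6,14],[]),([7,15],[])],([],[]))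
/-- One block of a generator. -/
def b5_15 : Blk := (27,[([1],[]),([],[0]),([3],[]),([],[2]),([5],[]),([],[4]),([7],[]),([],[6]),([0,8],[]),([1,9],[]),([2,10],[]),([3,11],[]),([4,12],[]),([5,13],[]),([6,14],[]),([7,15],[])],([],[]))
/-- One block of a generator. -/
def b5_16 : Blk := (16,[([],[1]),([0],[]),([],[3]),([2],[]),([],[5]),([4],[]),([],[7]),([6],[]),([1,8],[]),([9],[0]),([3,10],[]),([11],[2]),([5,12],[]),([13],[4]),([7,14],[]),([15],[6])],([],[]))
/-- One block of a generator. -/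
def b5_17 : Blk := (17,[([],[1]),([0],[]),([],[3]),([2],[]),([],[5]),([4],[]),([],[7]),([6],[]),([1,8],[]),([9],[0]),([3,10],[]),([11],[2]),([5,12],[]),([13],[4]),([7,14],[]),([15],[6])],([],[]))
/-- One block of a generator. -/
def b5_18 : Blk := (18,[([],[1]),([0],[]),([],[3]),([2],[]),([],[5]),([4],[]),([],[7]),([6],[]),([1,8],[]),([9],[0]),([3,10],[]),([11],[2]),([5,12],[]),([13],[4]),([7,14],[]),([15],[6])],([],[]))
/-- One block of a generator. -/
def b5_19 : Blk := (19,[([],[1]),([0],[]),([],[3]),([2],[]),([],[5]),([4],[]),([],[7]),([6],[]),([1,8],[]),([9],[0]),([3,10],[]),([11],[2]),([5,12],[]),([13],[4]),([7,14],[]),([15],[6])],([],[]))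
/-- One block of a generator. -/
def b5_20 : Blk := (20,[([],[1]),([0],[]),([],[3]),([2],[]),([],[5]),([4],[]),([],[7]),([6],[]),([1,8],[]),([9],[0]),([3,10],[]),([11],[2]),([5,12],[]),([13],[4]),([7,14],[]),([15],[6])],([],[]))
/-- One block of a generator. -/
def b5_21 : Blk := (21,[([],[1]),([0],[]),([],[3]),([2],[]),([],[5]),([4],[]),([],[7]),([6],[]),([1,8],[]),([9],[0]),([3,10],[]),([11],[2]),([5,12],[]),([13],[4]),([7,14],[]),([15],[6])],([],[]))
/-- One block of a generator. -/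
def b5_22 : Blk := (10,[([],[1]),([0],[]),([],[3]),([2],[]),([],[5]),([4],[]),([],[7]),([6],[]),([1,8],[]),([9],[0]),([3,10],[]),([11],[2]),([5,12],[]),([13],[4]),([7,14],[]),([15],[6])],([],[]))
/-- One block of a generator. -/
def b5_23 : Blk := (11,[([],[1]),([0],[]),([],[3]),([2],[]),([],[5]),([4],[]),([],[7]),([6],[]),([1,8],[]),([9],[0]),([3,10],[]),([11],[2]),([5,12],[]),([13],[4]),([7,14],[]),([15],[6])],([],[]))
/-- One block of a generator. -/
def b5_24 : Blk := (12,[([],[1]),([0],[]),([],[3]),([2],[]),([],[5]),([4],[]),([],[7]),([6],[]),([1,8],[]),([9],[0]),([3,10],[]),([11],[2]),([5,12],[]),([13],[4]),([7,14],[]),([15],[6])],([],[]))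
/-- One block of a generator. -/
def b5_25 : Blk := (13,[([],[1]),([0],[]),([],[3]),([2],[]),([],[5]),([4],[]),([],[7]),([6],[]),([1,8],[]),([9],[0]),([3,10],[]),([11],[2]),([5,12],[]),([13],[4]),([7,14],[]),([15],[6])],([],[]))
/-- One block of a generator. -/
def b5_26 : Blk := (14,[([],[1]),([0],[]),([],[3]),([2],[]),([],[5]),([4],[]),([],[7]),([6],[]),([1,8],[]),([9],[0]),([3,10],[]),([11],[2]),([5,12],[]),([13],[4]),([7,14],[]),([15],[6])],([],[]))
/-- One block of a generator. -/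
def b5_27 : Blk := (15,[([],[1]),([0],[]),([],[3]),([2],[]),([],[5]),([4],[]),([],[7]),([6],[]),([1,8],[]),([9],[0]),([3,10],[]),([11],[2]),([5,12],[]),([13],[4]),([7,14],[]),([15],[6])],([],[]))
/-- The blocks of a generator. -/
def g5 : List Blk := [b5_0,b5_1,b5_2,b5_3,b5_4,b5_5,b5_6,b5_7,b5_8,b5_9,b5_10,b5_11,b5_12,b5_13,b5_14,b5_15,b5_16,b5_17,b5_18,b5_19,b5_20,b5_21,b5_22,b5_23,b5_24,b5_25,b5_26,b5_27]
/-- One block of a generator. -/
def b6_0 : Blk := (4,[([5],[0]),([],[1,4]),([7],[2]),([],[3,6]),([],[5]),([4],[]),([],[7]),([6],[]),([13],[8]),([],[9,12]),([15],[10]),([],[11,14]),([],[13]),([12],[]),([],[15]),([14],[])],([],[]))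
/-- One block of a generator. -/
def b6_1 : Blk := (3,[([0,2],[3,5,6,7]),([1,2,3,4,6],[7]),([7],[2]),([],[3,6]),([5,6,7],[]),([7],[4,6]),([],[7]),([6],[]),([8,10],[11,13,14,15]),([9,10,11,12,14],[15]),([15],[10]),([],[11,14]),([13,14,15],[]),([15],[12,14]),([],[15]),([14],[])],([],[]))
/-- One block of a generator. -/
def b6_2 : Blk := (5,[([],[1,4]),([0],[5]),([1,3,4,5,6],[0]),([5,7],[0,1,2,4]),([4],[]),([5],[]),([],[4,5,6]),([4],[5,7]),([],[9,12]),([8],[13]),([9,11,12,13,14],[8]),([13,15],[8,9,10,12]),([12],[]),([13],[]),([],[12,13,14]),([12],[13,15])],([],[]))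
/-- One block of a generator. -/
def b6_3 : Blk := (1,[([0,2,4,6],[3,7]),([1,2,3,5,6,7],[]),([],[2,6]),([],[3,7]),([],[5,6,7]),([4,6],[7]),([7],[]),([],[6]),([8,10,12,14],[11,15]),([9,10,11,13,14,15],[]),([],[10,14]),([],[11,15]),([],[13,14,15]),([12,14],[15]),([15],[]),([],[14])],([],[]))
/-- One block of a generator. -/
def b6_4 : Blk := (0,[([],[0,4]),([],[1,5]),([],[2,6]),([],[3,7]),([5],[]),([],[4]),([7],[]),([],[6]),([],[8,12]),([],[9,13]),([],[10,14]),([],[11,15]),([13],[]),([],[12]),([15],[]),([],[14])],([],[]))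
/-- One block of a generator. -/
def b6_5 : Blk := (2,[([1,5],[]),([],[0,4]),([0,4],[1,3,5,7]),([0,1,2,4,5,6],[]),([4],[]),([5],[]),([],[4,5,6]),([4],[5,7]),([9,13],[]),([],[8,12]),([8,12],[9,11,13,15]),([8,9,10,12,13,14],[]),([12],[]),([13],[]),([],[12,13,14]),([12],[13,15])],([],[]))
/-- One block of a generator. -/
def b6_6 : Blk := (6,[([0,4],[]),([1,5],[]),([2,6],[]),([3,7],[]),([],[5]),([4],[]),([],[7]),([6],[]),([8,12],[]),([9,13],[]),([10,14],[]),([11,15],[]),([],[13]),([12],[]),([],[15]),([14],[])],([],[]))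
/-- One block of a generator. -/
def b6_7 : Blk := (7,[([0,4],[]),([1,5],[]),([2,6],[]),([3,7],[]),([],[5]),([4],[]),([],[7]),([6],[]),([8,12],[]),([9,13],[]),([10,14],[]),([11,15],[]),([],[13]),([12],[]),([],[15]),([14],[])],([],[]))
/-- One block of a generator. -/
def b6_8 : Blk := (8,[([0,4],[]),([1,5],[]),([2,6],[]),([3,7],[]),([],[5]),([4],[]),([],[7]),([6],[]),([8,12],[]),([9,13],[]),([10,14],[]),([11,15],[]),([],[13]),([12],[]),([],[15]),([14],[])],([],[]))
/-- One block of a generator. -/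
def b6_9 : Blk := (9,[([0,4],[]),([1,5],[]),([2,6],[]),([3,7],[]),([],[5]),([4],[]),([],[7]),([6],[]),([8,12],[]),([9,13],[]),([10,14],[]),([11,15],[]),([],[13]),([12],[]),([],[15]),([14],[])],([],[]))
/-- One block of a generator. -/
def b6_10 : Blk := (11,[([1,2,3,5,6,7,8,9,10,10,12,13,14,14],[]),([3,7,9,11,11,13,15,15],[0,2,4,6,8,12]),([0,4],[1,3,5,7,9,9,10,11,13,13,14,15]),([0,1,2,4,5,6,8,8,10,12,12,14],[11,15]),([4,6,12],[7,13,15,15]),([5,6,7,12,13,14,14],[]),([15],[4,5,6,12,12,14]),([4],[5,7,13,13,14,15]),([],[9,10,11,13,14,15]),([8,10,12,14],[11,15]),([9,11,13,15],[8,12]),([],[8,9,10,12,13,14]),([15],[12,14]),([],[13,14,15]),([12,13,14],[]),([13,15],[12])],([],[]))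
/-- One block of a generator. -/
def b6_11 : Blk := (10,[([1,2,3,4,6,8,9,10,10,12],[7,13,15,15]),([3,5,6,7,9,11,11,12,13,14,14],[0,2,8]),([0,15],[1,3,4,5,6,9,9,10,11,12,12,14]),([0,1,2,4,8,8,10],[5,7,11,13,13,14,15]),([7,13,15,15],[4,6,12]),([],[5,6,7,12,13,14,14]),([4,5,6,12,12,14],[15]),([5,7,13,13,14,15],[4]),([15],[9,10,11,12,14]),([8,10],[11,13,14,15]),([9,11,12,13,14],[8]),([13,15],[8,9,10,12]),([12,14],[15]),([13,14,15],[]),([],[12,13,14]),([12],[13,15])],([],[]))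
/-- One block of a generator. -/
def b6_12 : Blk := (12,[([0,4],[]),([1,5],[]),([2,6],[]),([3,7],[]),([],[5]),([4],[]),([],[7]),([6],[]),([8,12],[]),([9,13],[]),([10,14],[]),([11,15],[]),([],[13]),([12],[]),([],[15]),([14],[])],([],[]))
/-- One block of a generator. -/
def b6_13 : Blk := (13,[([0,4],[]),([1,5],[]),([2,6],[]),([3,7],[]),([],[5]),([4],[]),([],[7]),([6],[]),([8,12],[]),([9,13],[]),([10,14],[]),([11,15],[]),([],[13]),([12],[]),([],[15]),([14],[])],([],[]))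
/-- One block of a generator. -/
def b6_14 : Blk := (14,[([0,4],[]),([1,5],[]),([2,6],[]),([3,7],[]),([],[5]),([4],[]),([],[7]),([6],[]),([8,12],[]),([9,13],[]),([10,14],[]),([11,15],[]),([],[13]),([12],[]),([],[15]),([14],[])],([],[]))
/-- One block of a generator. -/
def b6_15 : Blk := (15,[([0,4],[]),([1,5],[]),([2,6],[]),([3,7],[]),([],[5]),([4],[]),([],[7]),([6],[]),([8,12],[]),([9,13],[]),([10,14],[]),([11,15],[]),([],[13]),([12],[]),([],[15]),([14],[])],([],[]))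
/-- One block of a generator. -/
def b6_16 : Blk := (17,[([1,2,3,4,6],[7]),([3,5,6,7],[0,2]),([0],[1,3,4,5,6]),([0,1,2,4],[5,7]),([7],[4,6]),([],[5,6,7]),([4,5,6],[]),([5,7],[4]),([0,15],[1,3,3,4,5,6,6,9,10,11,12,14]),([0,1,2,2,4,8,10],[5,7,7,11,13,14,15]),([3,5,5,6,7,9,11,12,13,14],[0,0,2,8]),([7,13,15],[1,1,2,3,4,4,6,8,9,10,12]),([4,5,6,6,12,14],[15]),([5,7,7,13,14,15],[4]),([],[5,5,6,7,12,13,14]),([4,4,6,12],[7,13,15])],([],[]))
/-- One block of a generator. -/
def b6_17 : Blk := (16,[([1,2,3,5,6,7],[]),([3,7],[0,2,4,6]),([0,4],[1,3,5,7]),([0,1,2,4,5,6],[]),([4,6],[7]),([5,6,7],[]),([],[4,5,6]),([4],[5,7]),([0,4],[1,3,3,5,7,7,9,10,11,13,14,15]),([0,1,2,2,4,5,6,6,8,10,12,14],[11,15]),([3,7,9,11,13,15],[0,0,2,4,4,6,8,12]),([],[1,1,2,3,5,5,6,7,8,9,10,12,13,14]),([15],[4,5,6,6,12,14]),([4],[5,7,7,13,14,15]),([5,5,6,7,12,13,14],[]),([7,13,15],[4,4,6,12])],([],[]))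
/-- One block of a generator. -/
def b6_18 : Blk := (18,[([0,4],[]),([1,5],[]),([2,6],[]),([3,7],[]),([],[5]),([4],[]),([],[7]),([6],[]),([8,12],[]),([9,13],[]),([10,14],[]),([11,15],[]),([],[13]),([12],[]),([],[15]),([14],[])],([],[]))
/-- One block of a generator. -/
def b6_19 : Blk := (19,[([0,4],[]),([1,5],[]),([2,6],[]),([3,7],[]),([],[5]),([4],[]),([],[7]),([6],[]),([8,12],[]),([9,13],[]),([10,14],[]),([11,15],[]),([],[13]),([12],[]),([],[15]),([14],[])],([],[]))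
/-- One block of a generator. -/
def b6_20 : Blk := (20,[([0,4],[]),([1,5],[]),([2,6],[]),([3,7],[]),([],[5]),([4],[]),([],[7]),([6],[]),([8,12],[]),([9,13],[]),([10,14],[]),([11,15],[]),([],[13]),([12],[]),([],[15]),([14],[])],([],[]))
/-- One block of a generator. -/
def b6_21 : Blk := (21,[([0,4],[]),([1,5],[]),([2,6],[]),([3,7],[]),([],[5]),([4],[]),([],[7]),([6],[]),([8,12],[]),([9,13],[]),([10,14],[]),([11,15],[]),([],[13]),([12],[]),([],[15]),([14],[])],([],[]))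
/-- One block of a generator. -/
def b6_22 : Blk := (23,[([3,7,9,11,11,13,15,15],[0,2,4,6,8,12]),([],[1,2,3,5,6,7,8,9,10,10,12,13,14,14]),([0,1,2,4,5,6,8,8,10,12,12,14],[11,15]),([1,3,5,7,9,9,10,11,13,13,14,15],[0,4]),([5,6,7,12,13,14,14],[]),([7,13,15,15],[4,6,12]),([4],[5,7,13,13,14,15]),([4,5,6,12,12,14],[15]),([0,1,2,2,4,5,6,6,8,10,12,14],[11,15]),([1,3,3,5,7,7,9,10,11,13,14,15],[0,4]),([],[1,1,2,3,5,5,6,7,8,9,10,12,13,14]),([0,0,2,4,4,6,8,12],[3,7,9,11,13,15]),([4],[5,7,7,13,14,15]),([4,5,6,6,12,14],[15]),([7,13,15],[4,4,6,12]),([],[5,5,6,7,12,13,14])],([],[]))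
/-- One block of a generator. -/
def b6_23 : Blk := (22,[([3,5,6,7,9,11,11,12,13,14,14],[0,2,8]),([7,13,15,15],[1,2,3,4,6,8,9,10,10,12]),([0,1,2,4,8,8,10],[5,7,11,13,13,14,15]),([1,3,4,5,6,9,9,10,11,12,12,14],[0,15]),([],[5,6,7,12,13,14,14]),([4,6,12],[7,13,15,15]),([5,7,13,13,14,15],[4]),([15],[4,5,6,12,12,14]),([0,1,2,2,4,8,10],[5,7,7,11,13,14,15]),([1,3,3,4,5,6,6,9,10,11,12,14],[0,15]),([7,13,15],[1,1,2,3,4,4,6,8,9,10,12]),([0,0,2,8],[3,5,5,6,7,9,11,12,13,14]),([5,7,7,13,14,15],[4]),([15],[4,5,6,6,12,14]),([4,4,6,12],[7,13,15]),([5,5,6,7,12,13,14],[])],([],[]))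
/-- One block of a generator. -/
def b6_24 : Blk := (24,[([0,4],[]),([1,5],[]),([2,6],[]),([3,7],[]),([],[5]),([4],[]),([],[7]),([6],[]),([8,12],[]),([9,13],[]),([10,14],[]),([11,15],[]),([],[13]),([12],[]),([],[15]),([14],[])],([],[]))
/-- One block of a generator. -/
def b6_25 : Blk := (25,[([0,4],[]),([1,5],[]),([2,6],[]),([3,7],[]),([],[5]),([4],[]),([],[7]),([6],[]),([8,12],[]),([9,13],[]),([10,14],[]),([11,15],[]),([],[13]),([12],[]),([],[15]),([14],[])],([],[]))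
/-- One block of a generator. -/
def b6_26 : Blk := (26,[([0,4],[]),([1,5],[]),([2,6],[]),([3,7],[]),([],[5]),([4],[]),([],[7]),([6],[]),([8,12],[]),([9,13],[]),([10,14],[]),([11,15],[]),([],[13]),([12],[]),([],[15]),([14],[])],([],[]))
/-- One block of a generator. -/
def b6_27 : Blk := (27,[([0,4],[]),([1,5],[]),([2,6],[]),([3,7],[]),([],[5]),([4],[]),([],[7]),([6],[]),([8,12],[]),([9,13],[]),([10,14],[]),([11,15],[]),([],[13]),([12],[]),([],[15]),([14],[])],([],[]))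
/-- The blocks of a generator. -/
def g6 : List Blk := [b6_0,b6_1,b6_2,b6_3,b6_4,b6_5,b6_6,b6_7,b6_8,b6_9,b6_10,b6_11,b6_12,b6_13,b6_14,b6_15,b6_16,b6_17,b6_18,b6_19,b6_20,b6_21,b6_22,b6_23,b6_24,b6_25,b6_26,b6_27]
/-- All generators. -/
def tab : List (List Blk) := [g0,g1,g2,g3,g4,g5,g6]
/-- The lattice basis in orthonormal coordinates. -/
def bas : List Row := [([0],[]),([1],[]),([0,2],[3]),([1,2,3],[]),([0,4],[5]),([1,4,5],[]),([0,2,4],[3,5,7,7]),([1,2,3,4,5,6,6],[]),([0,8],[9]),([1,8,9],[]),([0,2,8],[3,9,11,11]),([1,2,3,8,9,10,10],[]),([0,4,8],[5,9,13,13]),([1,4,5,8,9,12,12],[]),([0,2,4,8],[3,5,7,7,9,11,11,13,13,14,14,15,15]),([1,2,3,4,5,6,6,8,9,10,10,12,12,14,14],[15,15])]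
/-- Four times the inverse of the lattice basis. -/
def basInv : List Row := [([0,0,0,0],[]),([1,1,1,1],[]),([2,2,3,3],[0,0,1,1]),([0,0,3,3],[1,1,2,2]),([4,4,5,5],[0,0,1,1]),([0,0,5,5],[1,1,4,4]),([1,1,7,7],[3,3,5,5]),([2,2,4,4],[0,0,6,6]),([8,8,9,9],[0,0,1,1]),([0,0,9,9],[1,1,8,8]),([1,1,11,11],[3,3,9,9]),([2,2,8,8],[0,0,10,10]),([1,1,13,13],[5,5,9,9]),([4,4,8,8],[0,0,12,12]),([0,3,5,6,9,10,12,15],[1,2,4,7,8,11,13,14]),([0,1,6,7,10,11,12,13],[2,3,4,5,8,9,14,15])]

end Pool.Agent.Lib.MP_c86c76_al.NotT
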