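import Pool.Agent.Lib.MP_c86c76_al.NotT.Data

/-!
Evaluation of words in the affine action, and a test for equality of two words.
-/

set_option autoImplicit false

namespace Pool.Agent.Lib.MP_c86c76_al.NotT

open Matrix

section generic
variable {M M' : Type} [AddCommGroup M] [AddCommGroup M']

/-- Sum of the entries at the listed positions. -/
def sumAt (x : List M) : List ℕ → M
  | [] => 0
  | k :: l => x.getD k 0 + sumAt x l

/-- A sparse row applied to a vector. -/
def dotR (r : Row) (x : List M) : M := sumAt x r.1 - sumAt x r.2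

/-- A sparse matrix applied to a vector. -/
def app (R : List Row) (x : List M) : List M := R.map fun r => dotR r x

/-- The block `j` of the generator `s`. -/
def blk (s j : ℕ) : Blk := (tab.getD s []).getD j (0, [], ([], []))

/-- One generator on list states. -/
def stepL (s : ℕ) (st : ℕ × List M × M) : ℕ × List M × M :=
  ((blk s st.1).1, app (blk s st.1).2.1 st.2.1, st.2.2 + dotR (blk s st.1).2.2 st.2.1)

/-- A word on list states. -/
def runL : List (Fin 7) → ℕ × List M × M → ℕ × List M × M
  | [], st => st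
  | s :: w, st => stepL s.val (runL w st)

theorem getD_map_hom (φ : M →+ M') (x : List M) (k : ℕ) :
    (x.map φ).getD k 0 = φ (x.getD k 0) := by
  rw [← map_zero φ, List.getD_map]

theorem sumAt_map (φ : M →+ M') (x : List M) (l : List ℕ) :
    sumAt (x.map φ) l = φ (sumAt x l) := by
  induction l with
  | nil => simp [sumAt]
  | cons k l ih => rw [sumAt, sumAt, ih, getD_map_hom, map_add]

theorem dotR_map (φ : M →+ M') (r : Row) (x : List M) : dotR r (x.map φ) = φ (dotR r x) := by
  rw [dotR, dotR, sumAt_map, sumAt_map, map_sub]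

theorem app_map (φ : M →+ M') (R : List Row) (x : List M) :
    app R (x.map φ) = (app R x).map φ := by
  simp [app, dotR_map]

/-- A homomorphism applied to a state. -/
def mapSt (φ : M →+ M') (st : ℕ × List M × M) : ℕ × List M' × M' :=
  (st.1, st.2.1.map φ, φ st.2.2)

theorem runL_map (φ : M →+ M') (w : List (Fin 7)) (st : ℕ × List M × M) :
    runL w (mapSt φ st) = mapSt φ (runL w st) := by
  induction w with
  | nil => rfl
  | cons s w ih =>
    rw [runL, runL, ih]
    simp only [stepL, mapSt, app_map, dotR_map, map_add]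

end generic

/-- Integer vectors of length sixteen. -/
abbrev V : Type := Fin 16 → ℤ

/-- The list of unit vectors. -/
def E : List V := List.ofFn fun k => Pi.single k 1

/-- Pairing with a vector. -/
def ev (f : V) : V →+ ℤ := AddMonoidHom.mk' (fun m => m ⬝ᵥ f) fun a b => add_dotProduct a b f

theorem E_map (f : V) : E.map (ev f) = List.ofFn f := by
  rw [E, List.map_ofFn]
  congr 1
  funext k
  simp [ev]

/-- Size of a row. -/
def l1 (r : Row) : ℕ := r.1.length + r.2.length

/-- Well-formedness of a block. -/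
def okB (b : Blk) : Bool :=
  decide (b.1 < 28) && decide (b.2.1.length = 16) && b.2.1.all (fun r => decide (l1 r ≤ 15)) &&
    decide (l1 b.2.2 ≤ 15)

theorem ok_all : ∀ (s : Fin 7) (j : Fin 28), okB (blk s.val j.val) = true := by decide +kernel

theorem ok_parts (s : Fin 7) (j : ℕ) (hj : j < 28) : (blk s.val j).1 < 28 ∧
    (blk s.val j).2.1.length = 16 ∧ (∀ r ∈ (blk s.val j).2.1, l1 r ≤ 15) ∧
    l1 (blk s.val j).2.2 ≤ 15 := by
  have := ok_all s ⟨j, hj⟩
  simp only [okB, Bool.and_eq_true, decide_eq_true_eq, List.all_eq_true] at this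
  exact ⟨this.1.1.1, this.1.1.2, this.1.2, this.2⟩

/-- Entrywise bound. -/
def Bd (K : ℤ) (m : V) : Prop := ∀ k, |m k| ≤ K

theorem bd_sumAt {K : ℤ} (hK : 0 ≤ K) (x : List V) (hx : ∀ m ∈ x, Bd K m) (l : List ℕ) :
    Bd (l.length * K) (sumAt x l) := by
  induction l with
  | nil => intro k; simp [sumAt]
  | cons a l ih =>
    intro k
    have h1 : |x.getD a 0 k| ≤ K := by
      by_cases h : a < x.length
      · rw [List.getD_eq_getElem _ _ h]
        exact hx _ (List.getElem_mem h) k
      · rw [List.getD_eq_default _ _ (not_lt.1 h)]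
        simpa using hK
    have h2 := ih k
    have h3 := abs_add_le (x.getD a 0 k) (sumAt x l k)
    simp only [sumAt, Pi.add_apply, List.length_cons]
    push_cast
    linarith

theorem bd_dotR {K : ℤ} (hK : 0 ≤ K) (x : List V) (hx : ∀ m ∈ x, Bd K m) (r : Row)
    (hr : l1 r ≤ 15) : Bd (15 * K) (dotR r x) := by
  intro k
  have h1 := bd_sumAt hK x hx r.1 k
  have h2 := bd_sumAt hK x hx r.2 k
  have h3 := abs_sub (sumAt x r.1 k) (sumAt x r.2 k)
  have h4 : ((r.1.length : ℤ) + r.2.length) * K ≤ 15 * K :=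
    mul_le_mul_of_nonneg_right (by exact_mod_cast hr) hK
  simp only [dotR, Pi.sub_apply]
  linarith

theorem bd_run (w : List (Fin 7)) (j : ℕ) (hj : j < 28) :
    (runL w (j, E, 0)).1 < 28 ∧ (∀ m ∈ (runL w (j, E, 0)).2.1, Bd (16 ^ w.length) m) ∧
      Bd (16 ^ w.length) (runL w (j, E, (0 : V))).2.2 := by
  induction w with
  | nil =>
    refine ⟨hj, fun m hm k => ?_, fun k => by simp [runL]⟩
    simp only [runL, E, List.mem_ofFn] at hm
    obtain ⟨i, rfl⟩ := hm
    by_cases h : k = i
    · subst h; simp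
    · simp [Pi.single_eq_of_ne h]
  | cons s w ih =>
    obtain ⟨h1, h2, h3⟩ := ih
    obtain ⟨a1, -, a3, a4⟩ := ok_parts s _ h1
    have hK : (0 : ℤ) ≤ 16 ^ w.length := by positivity
    refine ⟨a1, fun m hm k => ?_, fun k => ?_⟩
    · simp only [runL, stepL, app, List.mem_map] at hm
      obtain ⟨r, hr, rfl⟩ := hm
      have := bd_dotR hK _ h2 r (a3 r hr) k
      rw [List.length_cons, pow_succ]
      linarith
    · have b1 := bd_dotR hK _ h2 _ a4 k
      have b2 := h3 k
      have b3 := abs_add_le ((runL w (j, E, (0 : V))).2.2 k)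
        (dotR (blk s.val (runL w (j, E, (0 : V))).1).2.2 (runL w (j, E, (0 : V))).2.1 k)
      simp only [runL, stepL, Pi.add_apply, List.length_cons, pow_succ]
      linarith

theorem digits_zero (B : ℤ) (n : ℕ) (d : Fin n → ℤ) (hd : ∀ k, |d k| < B)
    (h : ∑ k, d k * B ^ k.val = 0) : d = 0 := by
  induction n with
  | zero => exact Subsingleton.elim _ _
  | succ n ih =>
    have hB : B ≠ 0 := (lt_of_le_of_lt (abs_nonneg _) (hd 0)).ne'
    have e : ∑ k : Fin (n + 1), d k * B ^ k.val =
        d 0 + B * ∑ k : Fin n, d k.succ * B ^ k.val := by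
      rw [Fin.sum_univ_succ, Finset.mul_sum]
      simp only [Fin.val_zero, pow_zero, mul_one, Fin.val_succ, pow_succ]
      congr 1
      exact Finset.sum_congr rfl fun k _ => by ring
    rw [e] at h
    have h0 : d 0 = 0 := Int.eq_zero_of_abs_lt_dvd
      ⟨-∑ k : Fin n, d k.succ * B ^ k.val, by linarith⟩ (hd 0)
    rw [h0, zero_add] at h
    have := ih (fun k => d k.succ) (fun k => hd _) ((mul_eq_zero.1 h).resolve_left hB)
    funext k
    refine Fin.cases h0 (fun k => congrFun this k) k

/-- The test vector. -/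
def pk : V := fun k => (2 ^ 300) ^ k.val

theorem pk_inj {K : ℤ} (hK : K ≤ 16 ^ 72) (a b : V) (ha : Bd K a) (hb : Bd K b)
    (h : ev pk a = ev pk b) : a = b := by
  refine sub_eq_zero.1 (digits_zero (2 ^ 300) 16 (a - b) (fun k => ?_) ?_)
  · have h1 := ha k
    have h2 := hb k
    have h3 := abs_sub (a k) (b k)
    have h4 : (16 : ℤ) ^ 72 + 16 ^ 72 < 2 ^ 300 := by decide +kernel
    exact lt_of_le_of_lt (h3.trans (add_le_add (h1.trans hK) (h2.trans hK))) h4
  · have : ev pk (a - b) = 0 := by rw [map_sub, h, sub_self]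
    exact this

theorem map_pk_inj {K : ℤ} (hK : K ≤ 16 ^ 72) (x y : List V) (hx : ∀ m ∈ x, Bd K m)
    (hy : ∀ m ∈ y, Bd K m) (h : x.map (ev pk) = y.map (ev pk)) : x = y := by
  induction x generalizing y with
  | nil => simpa using h.symm
  | cons a x ih =>
    cases y with
    | nil => simp at h
    | cons b y =>
      simp only [List.map_cons, List.cons.injEq] at h
      rw [pk_inj hK a b (hx a (by simp)) (hy b (by simp)) h.1,
        ih y (fun m hm => hx m (by simp [hm])) (fun m hm => hy m (by simp [hm])) h.2]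

/-- The test vector as a list. -/
def pkL : List ℤ := (List.range 16).map fun k => (2 ^ 300) ^ k

theorem pkL_eq : List.ofFn pk = pkL := by decide +kernel

/-- Equality test of two words on the block `j`. -/
def chk (u v : List (Fin 7)) (j : ℕ) : Bool :=
  decide (runL u (j, pkL, (0 : ℤ)) = runL v (j, pkL, (0 : ℤ)))

theorem univ_of_chk (u v : List (Fin 7)) (hu : u.length ≤ 72) (hv : v.length ≤ 72) (j : ℕ)
    (hj : j < 28) (h : chk u v j = true) : runL u (j, E, (0 : V)) = runL v (j, E, (0 : V)) := by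
  have e : (j, pkL, (0 : ℤ)) = mapSt (ev pk) (j, E, (0 : V)) := by
    simp only [mapSt, E_map, pkL_eq, map_zero]
  rw [chk, decide_eq_true_eq, e, runL_map, runL_map] at h
  simp only [mapSt, Prod.mk.injEq] at h
  obtain ⟨-, a2, a3⟩ := bd_run u j hj
  obtain ⟨-, b2, b3⟩ := bd_run v j hj
  have m1 : (16 : ℤ) ^ u.length ≤ 16 ^ 72 := pow_le_pow_right₀ (by norm_num) hu
  have m2 : (16 : ℤ) ^ v.length ≤ 16 ^ 72 := pow_le_pow_right₀ (by norm_num) hv
  refine Prod.ext h.1 (Prod.ext ?_ ?_)
  · exact map_pk_inj le_rfl _ _ (fun m hm k => (a2 m hm k).trans m1)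
      (fun m hm k => (b2 m hm k).trans m2) h.2.1
  · exact pk_inj le_rfl _ _ (fun k => (a3 k).trans m1) (fun k => (b3 k).trans m2) h.2.2

/-- The matrix of a list of sparse rows. -/
def matOf (R : List Row) : Matrix (Fin 16) (Fin 16) ℤ := fun r => (app R E).getD r.val 0

theorem ofFn_mulVec (R : List Row) (hR : R.length = 16) (f : V) :
    List.ofFn (matOf R *ᵥ f) = app R (List.ofFn f) := by
  rw [← E_map f, app_map]
  apply List.ext_getElem
  · simp [app, hR]
  · intro k h1 h2
    have h3 : k < (app R E).length := by simpa using h2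
    rw [List.getElem_ofFn, List.getElem_map]
    show (app R E).getD k 0 ⬝ᵥ f = _
    rw [List.getD_eq_getElem _ _ h3]
    rfl

/-- The points acted on. -/
abbrev Y : Type := (Fin 28 × V) × ℤ

/-- One generator on points. -/
def stepY (s : Fin 7) (y : Y) : Y :=
  ((⟨(blk s.val y.1.1.val).1, (ok_parts s _ y.1.1.2).1⟩,
    matOf (blk s.val y.1.1.val).2.1 *ᵥ y.1.2),
    y.2 + dotR (blk s.val y.1.1.val).2.2 (List.ofFn y.1.2))

/-- A word on points. -/
def runY : List (Fin 7) → Y → Y
  | [], y => y
  | s :: w, y => stepY s (runY w y)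

/-- A point as a list state. -/
def toL (y : Y) : ℕ × List ℤ × ℤ := (y.1.1.val, List.ofFn y.1.2, y.2)

theorem toL_inj {y y' : Y} (h : toL y = toL y') : y = y' := by
  simp only [toL, Prod.mk.injEq] at h
  exact Prod.ext (Prod.ext (Fin.ext h.1) (List.ofFn_injective h.2.1)) h.2.2

theorem toL_run (w : List (Fin 7)) (y : Y) : toL (runY w y) = runL w (toL y) := by
  induction w with
  | nil => rfl
  | cons s w ih =>
    rw [runY, runL, ← ih]
    simp only [toL, stepY, stepL]
    rw [ofFn_mulVec _ (ok_parts s _ (runY w y).1.1.2).2.1]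

theorem run_shift (w : List (Fin 7)) (x : Fin 28 × V) (n : ℤ) :
    runY w (x, n) = ((runY w (x, 0)).1, (runY w (x, 0)).2 + n) := by
  induction w with
  | nil => simp [runY]
  | cons s w ih =>
    rw [runY, runY, ih]
    simp only [stepY, Prod.mk.injEq, true_and]
    ring

theorem run_eq_of_chk (u v : List (Fin 7)) (hu : u.length ≤ 72) (hv : v.length ≤ 72)
    (h : ∀ j : Fin 28, chk u v j.val = true) (y : Y) : runY u y = runY v y := by
  obtain ⟨x, n⟩ := y
  have : runY u (x, 0) = runY v (x, 0) := by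
    apply toL_inj
    have e : toL (x, 0) = mapSt (ev x.2) (x.1.val, E, (0 : V)) := by
      simp only [toL, mapSt, E_map, map_zero]
    rw [toL_run, toL_run, e, runL_map, runL_map, univ_of_chk u v hu hv _ x.1.2 (h x.1)]
  rw [run_shift u, run_shift v, this]

end Pool.Agent.Lib.MP_c86c76_al.NotT
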