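import Pool.Agent.Lib.MP_c86c76_al.NotT.Engine

/-!
A strict evaluator for the kernel.
-/

set_option autoImplicit false

namespace Pool.Agent.Lib.MP_c86c76_al.NotT

/-- Evaluate a natural number before continuing. -/
noncomputable def forceN (n : ℕ) (f : ℕ → Bool) : Bool :=
  Nat.rec (motive := fun _ => Bool) (f 0) (fun k _ => f (Nat.succ k)) n

theorem forceN_eq (n : ℕ) (f : ℕ → Bool) : forceN n f = f n := by cases n <;> rfl

/-- Evaluate an integer before continuing. -/
noncomputable def forceZ (z : ℤ) (f : ℤ → Bool) : Bool :=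
  Int.rec (motive := fun _ => Bool) (fun n => forceN n fun m => f (Int.ofNat m))
    (fun n => forceN n fun m => f (Int.negSucc m)) z

theorem forceZ_eq (z : ℤ) (f : ℤ → Bool) : forceZ z f = f z := by
  cases z with
  | ofNat n => exact forceN_eq n fun m => f (Int.ofNat m)
  | negSucc n => exact forceN_eq n fun m => f (Int.negSucc m)

/-- List lookup. -/
noncomputable def nthZ (x : List ℤ) : ℕ → ℤ :=
  List.rec (motive := fun _ => ℕ → ℤ) (fun _ => Int.ofNat 0)
    (fun a _ ih k => Nat.rec (motive := fun _ => ℤ) a (fun m _ => ih m) k) x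

theorem nthZ_eq (x : List ℤ) (k : ℕ) : nthZ x k = x.getD k 0 := by
  induction x generalizing k with
  | nil => rfl
  | cons a x ih =>
    cases k with
    | zero => rfl
    | succ k => exact ih k

/-- Sum of entries. -/
noncomputable def sumZ (x : List ℤ) (l : List ℕ) : ℤ :=
  List.rec (motive := fun _ => ℤ) (Int.ofNat 0) (fun k _ ih => Int.add (nthZ x k) ih) l

theorem sumZ_eq (x : List ℤ) (l : List ℕ) : sumZ x l = sumAt x l := by
  induction l with
  | nil => rfl
  | cons k l ih =>
    show nthZ x k + sumZ x l = _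
    rw [nthZ_eq, ih, sumAt]

/-- A row applied to a vector. -/
noncomputable def dotZ (r : Row) (x : List ℤ) : ℤ := Int.sub (sumZ x r.1) (sumZ x r.2)

theorem dotZ_eq (r : Row) (x : List ℤ) : dotZ r x = dotR r x := by
  show sumZ x r.1 - sumZ x r.2 = _
  rw [sumZ_eq, sumZ_eq, dotR]

/-- A matrix applied to a vector, strictly. -/
noncomputable def appZ (x : List ℤ) (R : List Row) : (List ℤ → Bool) → Bool :=
  List.rec (motive := fun _ => (List ℤ → Bool) → Bool) (fun k => k [])
    (fun r _ ih k => forceZ (dotZ r x) fun z => ih fun l => k (z :: l)) R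

theorem appZ_eq (x : List ℤ) (R : List Row) (k : List ℤ → Bool) : appZ x R k = k (app R x) := by
  induction R generalizing k with
  | nil => rfl
  | cons r R ih =>
    show forceZ (dotZ r x) (fun z => appZ x R fun l => k (z :: l)) = _
    rw [forceZ_eq, ih, dotZ_eq]
    rfl

/-- A word read from the left, strictly. -/
noncomputable def runZ (k : ℕ → List ℤ → ℤ → Bool) (w : List (Fin 7)) :
    ℕ → List ℤ → ℤ → Bool :=
  List.rec (motive := fun _ => ℕ → List ℤ → ℤ → Bool) k
    (fun s _ ih j x n => Prod.rec (motive := fun _ => Bool) (fun t q =>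
      forceN t fun j' => appZ x q.1 fun x' => forceZ (Int.add n (dotZ q.2 x)) fun n' =>
        ih j' x' n') (blk s.val j)) w

theorem runL_append (u v : List (Fin 7)) (st : ℕ × List ℤ × ℤ) :
    runL (u ++ v) st = runL u (runL v st) := by
  induction u with
  | nil => rfl
  | cons s u ih => rw [List.cons_append, runL, runL, ih]

theorem runZ_eq (k : ℕ → List ℤ → ℤ → Bool) (w : List (Fin 7)) (j : ℕ) (x : List ℤ) (n : ℤ) :
    runZ k w j x n = k (runL w.reverse (j, x, n)).1 (runL w.reverse (j, x, n)).2.1
      (runL w.reverse (j, x, n)).2.2 := by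
  induction w generalizing j x n with
  | nil => rfl
  | cons s w ih =>
    rw [List.reverse_cons, runL_append]
    show forceN (blk s.val j).1 (fun j' => appZ x (blk s.val j).2.1 fun x' =>
      forceZ (n + dotZ (blk s.val j).2.2 x) fun n' => runZ k w j' x' n') = _
    rw [forceN_eq, appZ_eq, forceZ_eq, ih, dotZ_eq]
    rfl

/-- The strict equality test. -/
noncomputable def chkZ (u v : List (Fin 7)) (j : ℕ) : Bool :=
  appZ pkL ((List.range 16).map fun k => ([k], [])) fun p =>
    runZ (fun a x n => runZ (fun b y m => decide ((a, x, n) = (b, y, m))) v.reverse j p 0)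
      u.reverse j p 0

theorem app_id : app ((List.range 16).map fun k => ([k], [])) pkL = pkL := by decide +kernel

theorem chkZ_eq (u v : List (Fin 7)) (j : ℕ) : chkZ u v j = chk u v j := by
  rw [chkZ, appZ_eq, app_id, runZ_eq, runZ_eq, List.reverse_reverse, List.reverse_reverse, chk]

/-- A power of a word. -/
def rp (n : ℕ) (w : List (Fin 7)) : List (Fin 7) := (List.replicate n w).flatten

end Pool.Agent.Lib.MP_c86c76_al.NotT
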