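import Pool.Agent.Lib.MP_c86c76_al.NotT.Fast

/-!
Invariance of the quadratic form.
-/

set_option autoImplicit false

namespace Pool.Agent.Lib.MP_c86c76_al.NotT

open Matrix

/-- Unit vectors as lists. -/
def units : List (List ℤ) := [[1,0,0,0,0,0,0,0,0,0,0,0,0,0,0,0],[0,1,0,0,0,0,0,0,0,0,0,0,0,0,0,0],[0,0,1,0,0,0,0,0,0,0,0,0,0,0,0,0],[0,0,0,1,0,0,0,0,0,0,0,0,0,0,0,0],[0,0,0,0,1,0,0,0,0,0,0,0,0,0,0,0],[0,0,0,0,0,1,0,0,0,0,0,0,0,0,0,0],[0,0,0,0,0,0,1,0,0,0,0,0,0,0,0,0],[0,0,0,0,0,0,0,1,0,0,0,0,0,0,0,0],[0,0,0,0,0,0,0,0,1,0,0,0,0,0,0,0],[0,0,0,0,0,0,0,0,0,1,0,0,0,0,0,0],[0,0,0,0,0,0,0,0,0,0,1,0,0,0,0,0],[0,0,0,0,0,0,0,0,0,0,0,1,0,0,0,0],[0,0,0,0,0,0,0,0,0,0,0,0,1,0,0,0],[0,0,0,0,0,0,0,0,0,0,0,0,0,1,0,0],[0,0,0,0,0,0,0,0,0,0,0,0,0,0,1,0],[0,0,0,0,0,0,0,0,0,0,0,0,0,0,0,1]]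

/-- The Gram matrix. -/
def gramL : List (List ℤ) := [[8,0,4,-4,4,-4,0,-4,4,-4,0,-4,0,-4,-2,-2],[0,8,4,4,4,4,4,0,4,4,4,0,4,0,2,-2],[4,4,8,0,4,0,4,-4,4,0,4,-4,2,-2,0,-4],[-4,4,0,8,0,4,4,4,0,4,4,4,2,2,4,0],[4,4,4,0,8,0,4,-4,4,0,2,-2,4,-4,0,-4],[-4,4,0,4,0,8,4,4,0,4,2,2,4,4,4,0],[0,4,4,4,4,4,8,0,2,2,4,0,4,0,4,-4],[-4,0,-4,4,-4,4,0,8,-2,2,0,4,0,4,4,4],[4,4,4,0,4,0,2,-2,8,0,4,-4,4,-4,0,-4],[-4,4,0,4,0,4,2,2,0,8,4,4,4,4,4,0],[0,4,4,4,2,2,4,0,4,4,8,0,4,0,4,-4],[-4,0,-4,4,-2,2,0,4,-4,4,0,8,0,4,4,4],[0,4,2,2,4,4,4,0,4,4,4,0,8,0,4,-4],[-4,0,-2,2,-4,4,0,4,-4,4,0,4,0,8,4,4],[-2,2,0,4,0,4,4,4,0,4,4,4,4,4,8,0],[-2,-2,-4,0,-4,0,-4,4,-4,0,-4,4,-4,4,0,8]]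

/-- Dot product of lists. -/
noncomputable def dotL (u : List ℤ) : List ℤ → ℤ :=
  List.rec (motive := fun _ => List ℤ → ℤ) (fun _ => Int.ofNat 0)
    (fun a _ ih v => List.rec (motive := fun _ => ℤ) (Int.ofNat 0)
      (fun b v' _ => Int.add (Int.mul a b) (ih v')) v) u

theorem dotL_ofFn (n : ℕ) (u v : Fin n → ℤ) : dotL (List.ofFn u) (List.ofFn v) = u ⬝ᵥ v := by
  induction n with
  | zero => simp [dotL]
  | succ n ih =>
    rw [List.ofFn_succ, List.ofFn_succ]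
    show u 0 * v 0 + dotL (List.ofFn fun i => u i.succ) (List.ofFn fun i => v i.succ) = _
    rw [ih, dotProduct, dotProduct, Fin.sum_univ_succ]

/-- Images of a list of vectors, strictly. -/
noncomputable def colsZ (R : List Row) (L : List (List ℤ)) : (List (List ℤ) → Bool) → Bool :=
  List.rec (motive := fun _ => (List (List ℤ) → Bool) → Bool) (fun k => k [])
    (fun u _ ih k => appZ u R fun x => appZ x bas fun y => ih fun l => k (y :: l)) L

theorem colsZ_eq (R : List Row) (L : List (List ℤ)) (k : List (List ℤ) → Bool) :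
    colsZ R L k = k (L.map fun u => app bas (app R u)) := by
  induction L generalizing k with
  | nil => rfl
  | cons u L ih =>
    show appZ u R (fun x => appZ x bas fun y => colsZ R L fun l => k (y :: l)) = _
    rw [appZ_eq, appZ_eq, ih]
    rfl

/-- The Gram test. -/
noncomputable def gramZ (R : List Row) : Bool :=
  colsZ R units fun L => decide ((L.map fun u => L.map fun v => dotL u v) = gramL)

theorem units_eq : units = List.ofFn fun k : Fin 16 => List.ofFn (Pi.single k 1 : V) := by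
  decide +kernel

theorem bas_len : bas.length = 16 := by decide +kernel

theorem gram_of (R : List Row) (hR : R.length = 16) (h : gramZ R = true) :
    (List.ofFn fun k : Fin 16 => List.ofFn fun l : Fin 16 =>
      ((matOf bas * matOf R)ᵀ * (matOf bas * matOf R)) k l) = gramL := by
  rw [gramZ, colsZ_eq, decide_eq_true_eq, units_eq, List.map_ofFn, List.map_ofFn] at h
  rw [← h]
  congr 1
  funext k
  simp only [Function.comp_apply, List.map_ofFn]
  congr 1
  funext l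
  simp only [Function.comp_apply, ← ofFn_mulVec _ hR, ← ofFn_mulVec _ bas_len, dotL_ofFn,
    mulVec_single_one]
  rfl

/-- The identity matrix as sparse rows. -/
def idR : List Row := (List.range 16).map fun k => ([k], [])

theorem gram_id : gramZ idR = true := by decide +kernel

theorem matOf_id : matOf idR = 1 := by
  have : ∀ k l, matOf idR k l = (1 : Matrix (Fin 16) (Fin 16) ℤ) k l := by decide +kernel
  exact Matrix.ext this

/-- The invariant form. -/
def qf (f : V) : ℤ := (matOf bas *ᵥ f) ⬝ᵥ (matOf bas *ᵥ f)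

theorem qf_of_gram (R : List Row) (hR : R.length = 16) (h : gramZ R = true) (f : V) :
    qf (matOf R *ᵥ f) = qf f := by
  have h1 := (gram_of R hR h).trans (gram_of idR (by decide) gram_id).symm
  have h2 : (matOf bas * matOf R)ᵀ * (matOf bas * matOf R) = (matOf bas)ᵀ * matOf bas := by
    ext k l
    have := congrFun (List.ofFn_injective (congrFun (List.ofFn_injective h1) k)) l
    simpa only [matOf_id, mul_one] using this
  have h3 : ∀ C : Matrix (Fin 16) (Fin 16) ℤ, (C *ᵥ f) ⬝ᵥ (C *ᵥ f) = f ⬝ᵥ ((Cᵀ * C) *ᵥ f) := by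
    intro C
    rw [← mulVec_mulVec, dotProduct_mulVec f, vecMul_transpose]
  rw [qf, qf, mulVec_mulVec, h3, h3, h2]

theorem bas_inv : ∀ k : Fin 16, app basInv (app bas (List.ofFn (Pi.single k 1 : V))) =
    List.ofFn (Pi.single k 4 : V) := by decide +kernel

theorem bas_inj {f f' : V} (h : matOf bas *ᵥ f = matOf bas *ᵥ f') : f = f' := by
  have h1 : matOf basInv * matOf bas = (4 : ℤ) • (1 : Matrix (Fin 16) (Fin 16) ℤ) := by
    ext r k
    have := bas_inv k
    rw [← ofFn_mulVec _ bas_len, ← ofFn_mulVec _ (by decide +kernel), mulVec_mulVec,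
      mulVec_single_one] at this
    have h2 := congrFun (List.ofFn_injective this) r
    rw [Matrix.col_apply] at h2
    rw [h2]
    by_cases e : r = k
    · subst e; simp
    · simp [e]
  have h2 := congrArg (fun v => matOf basInv *ᵥ v) h
  simp only [mulVec_mulVec, h1, smul_mulVec, one_mulVec] at h2
  exact smul_right_injective V (by norm_num : (4 : ℤ) ≠ 0) h2

theorem finite_level (m : ℤ) : {x : Fin 28 × V | qf x.2 = m}.Finite := by
  have h1 : (Set.pi Set.univ fun _ : Fin 16 => Set.Icc (-m) m).Finite :=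
    Set.Finite.pi fun _ => Set.finite_Icc _ _
  have h2 : {f : V | qf f = m}.Finite := by
    refine (h1.preimage (f := fun f : V => matOf bas *ᵥ f) fun _ _ _ _ h => bas_inj h).subset ?_
    intro f hf k _
    have h3 : (matOf bas *ᵥ f) k * (matOf bas *ᵥ f) k ≤ m := by
      rw [← (show qf f = m from hf), qf, dotProduct]
      exact Finset.single_le_sum (f := fun i => (matOf bas *ᵥ f) i * (matOf bas *ᵥ f) i)
        (fun _ _ => mul_self_nonneg _) (Finset.mem_univ k)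
    constructor <;> nlinarith [Int.le_self_sq ((matOf bas *ᵥ f) k),
      Int.le_self_sq (-(matOf bas *ᵥ f) k)]
  exact (Set.finite_univ.prod h2).subset fun x hx => ⟨trivial, hx⟩

/-- The Gram test for all blocks of one generator. -/
noncomputable def cG (s : ℕ) (js : List ℕ) : Bool := js.all fun j => gramZ (blk s j).2.1

end Pool.Agent.Lib.MP_c86c76_al.NotT
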