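import Mathlib

/-!
The presentation of the mapping class group of the closed surface of genus three given by
Matsumoto and by Labruere and Paris. The generators `0, ..., 5` are the twists `x0, y1, ..., y5`
along a chain of six curves and the generator `6` is the twist `z`, whose curve meets only `y3`.
-/

set_option autoImplicit false

namespace Pool.Agent.Lib.MP_c86c76_al.NotT

/-- The edges of the diagram of type `E7`. -/
def Edge (i j : Fin 7) : Prop :=
  (i, j) ∈ ([(0, 1), (1, 2), (2, 3), (3, 4), (4, 5), (3, 6)] : List (Fin 7 × Fin 7))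

/-- The product of the listed generators. -/
def word (l : List (Fin 7)) : FreeGroup (Fin 7) := (l.map FreeGroup.of).prod

/-- The relators. -/
def rels : Set (FreeGroup (Fin 7)) :=
  {r | (∃ i j, Edge i j ∧ r = word [i, j, i] * (word [j, i, j])⁻¹) ∨
    (∃ i j, ¬ Edge i j ∧ ¬ Edge j i ∧ r = word [i, j] * (word [j, i])⁻¹) ∨
    r = word [1, 2, 3, 6] ^ 10 * (word [0, 1, 2, 3, 6] ^ 6)⁻¹ ∨
    r = word [1, 2, 3, 4, 5, 6] ^ 12 * (word [0, 1, 2, 3, 4, 5, 6] ^ 9)⁻¹ ∨
    r = word [0] ^ 4 * (word [6, 2, 3, 4, 5] ^ 8)⁻¹}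

/-- The mapping class group of the closed orientable surface of genus three. -/
abbrev Mod3 : Type := PresentedGroup rels

end Pool.Agent.Lib.MP_c86c76_al.NotT
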