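import Pool.Agent.Lib.MP_c86c76_al.NotT.General
import Pool.Agent.Lib.MP_c86c76_al.NotT.Pres
import Pool.Agent.Lib.MP_c86c76_al.NotT.Check0
import Pool.Agent.Lib.MP_c86c76_al.NotT.Check1
import Pool.Agent.Lib.MP_c86c76_al.NotT.Check2
import Pool.Agent.Lib.MP_c86c76_al.NotT.Check3
import Pool.Agent.Lib.MP_c86c76_al.NotT.CheckG0
import Pool.Agent.Lib.MP_c86c76_al.NotT.CheckG1

/-!
The affine action of the genus three mapping class group and its consequences.
-/

set_option autoImplicit false

namespace Pool.Agent.Lib.MP_c86c76_al.NotT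

open Matrix

theorem cA_all (j : Fin 28) : cA j.val = true := by
  fin_cases j
  · exact cA_0
  · exact cA_1
  · exact cA_2
  · exact cA_3
  · exact cA_4
  · exact cA_5
  · exact cA_6
  · exact cA_7
  · exact cA_8
  · exact cA_9
  · exact cA_10
  · exact cA_11
  · exact cA_12
  · exact cA_13
  · exact cA_14
  · exact cA_15
  · exact cA_16
  · exact cA_17
  · exact cA_18
  · exact cA_19
  · exact cA_20
  · exact cA_21
  · exact cA_22
  · exact cA_23
  · exact cA_24
  · exact cA_25
  · exact cA_26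
  · exact cA_27

theorem cB_all (j : Fin 28) : cB j.val = true := by
  fin_cases j
  · exact cB_0
  · exact cB_1
  · exact cB_2
  · exact cB_3
  · exact cB_4
  · exact cB_5
  · exact cB_6
  · exact cB_7
  · exact cB_8
  · exact cB_9
  · exact cB_10
  · exact cB_11
  · exact cB_12
  · exact cB_13
  · exact cB_14
  · exact cB_15
  · exact cB_16
  · exact cB_17
  · exact cB_18
  · exact cB_19
  · exact cB_20
  · exact cB_21
  · exact cB_22
  · exact cB_23
  · exact cB_24
  · exact cB_25
  · exact cB_26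
  · exact cB_27

theorem cC_all (j : Fin 28) : cC j.val = true := by
  fin_cases j
  · exact cC_0
  · exact cC_1
  · exact cC_2
  · exact cC_3
  · exact cC_4
  · exact cC_5
  · exact cC_6
  · exact cC_7
  · exact cC_8
  · exact cC_9
  · exact cC_10
  · exact cC_11
  · exact cC_12
  · exact cC_13
  · exact cC_14
  · exact cC_15
  · exact cC_16
  · exact cC_17
  · exact cC_18
  · exact cC_19
  · exact cC_20
  · exact cC_21
  · exact cC_22
  · exact cC_23
  · exact cC_24
  · exact cC_25
  · exact cC_26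
  · exact cC_27

theorem cG_all (s q : Fin 7) :
    cG s.val [4 * q.val, 4 * q.val + 1, 4 * q.val + 2, 4 * q.val + 3] = true := by
  fin_cases s <;> fin_cases q
  · exact cG_0_0
  · exact cG_0_1
  · exact cG_0_2
  · exact cG_0_3
  · exact cG_0_4
  · exact cG_0_5
  · exact cG_0_6
  · exact cG_1_0
  · exact cG_1_1
  · exact cG_1_2
  · exact cG_1_3
  · exact cG_1_4
  · exact cG_1_5
  · exact cG_1_6
  · exact cG_2_0
  · exact cG_2_1
  · exact cG_2_2
  · exact cG_2_3
  · exact cG_2_4
  · exact cG_2_5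
  · exact cG_2_6
  · exact cG_3_0
  · exact cG_3_1
  · exact cG_3_2
  · exact cG_3_3
  · exact cG_3_4
  · exact cG_3_5
  · exact cG_3_6
  · exact cG_4_0
  · exact cG_4_1
  · exact cG_4_2
  · exact cG_4_3
  · exact cG_4_4
  · exact cG_4_5
  · exact cG_4_6
  · exact cG_5_0
  · exact cG_5_1
  · exact cG_5_2
  · exact cG_5_3
  · exact cG_5_4
  · exact cG_5_5
  · exact cG_5_6
  · exact cG_6_0
  · exact cG_6_1
  · exact cG_6_2
  · exact cG_6_3
  · exact cG_6_4
  · exact cG_6_5
  · exact cG_6_6

theorem gram_all (s : Fin 7) (j : Fin 28) : gramZ (blk s.val j.val).2.1 = true := by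
  have h := cG_all s ⟨j.val / 4, by omega⟩
  rw [cG, List.all_eq_true] at h
  refine h _ ?_
  simp only [List.mem_cons, List.not_mem_nil, or_false]
  omega

theorem short_run (p : List (Fin 7) × List (Fin 7)) (hp : p ∈ shortL) (y : Y) :
    runY p.1 y = runY p.2 y := by
  have hl : ∀ p ∈ shortL, p.1.length ≤ 72 ∧ p.2.length ≤ 72 := by decide
  refine run_eq_of_chk _ _ (hl p hp).1 (hl p hp).2 (fun j => ?_) y
  have h := cA_all j
  rw [cA, List.all_eq_true] at h
  rw [← chkZ_eq]
  exact h p hp

theorem step_four (s : Fin 7) (y : Y) : stepY s (stepY s (stepY s (stepY s y))) = y := by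
  have : ∀ s : Fin 7, ([s, s, s, s], []) ∈ shortL := by decide
  exact short_run _ (this s) y

/-- The generators as permutations. -/
def genP (s : Fin 7) : Equiv.Perm Y :=
  ⟨stepY s, fun y => stepY s (stepY s (stepY s y)), step_four s, step_four s⟩

theorem lift_word (w : List (Fin 7)) (y : Y) : FreeGroup.lift genP (word w) y = runY w y := by
  induction w with
  | nil => simp [word, runY]
  | cons s w ih =>
    have : word (s :: w) = FreeGroup.of s * word w := by simp [word]
    rw [this, map_mul, FreeGroup.lift_apply_of, Equiv.Perm.mul_apply, ih]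
    rfl

theorem word_rp (n : ℕ) (w : List (Fin 7)) : word (rp n w) = word w ^ n := by
  induction n with
  | zero => simp [word, rp]
  | succ n ih =>
    have : word (rp (n + 1) w) = word w * word (rp n w) := by
      simp [word, rp, List.replicate_succ]
    rw [this, ih, pow_succ']

theorem rel_of_run {u v : List (Fin 7)} (h : ∀ y, runY u y = runY v y) :
    FreeGroup.lift genP (word u * (word v)⁻¹) = 1 := by
  rw [map_mul, map_inv, mul_inv_eq_one]
  ext1 y
  rw [lift_word, lift_word, h]

theorem rels_hold : ∀ r ∈ rels, FreeGroup.lift genP r = 1 := by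
  rintro r (⟨i, j, h, rfl⟩ | ⟨i, j, h, h', rfl⟩ | rfl | rfl | rfl)
  · have : ∀ i j : Fin 7, Edge i j → ([i, j, i], [j, i, j]) ∈ shortL := by
      unfold Edge
      decide
    exact rel_of_run (short_run _ (this i j h))
  · have : ∀ i j : Fin 7, ¬ Edge i j → ¬ Edge j i →
        i = j ∨ ([i, j], [j, i]) ∈ shortL ∨ ([j, i], [i, j]) ∈ shortL := by
      unfold Edge
      decide
    rcases this i j h h' with rfl | e | e
    · exact rel_of_run fun _ => rfl
    · exact rel_of_run (short_run _ e)
    · exact rel_of_run fun y => (short_run _ e y).symm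
  · rw [← word_rp, ← word_rp]
    refine rel_of_run (run_eq_of_chk _ _ (by decide) (by decide) fun j => ?_)
    have h := cB_all j
    rw [cB, Bool.and_eq_true] at h
    rw [← chkZ_eq]
    exact h.1
  · rw [← word_rp, ← word_rp]
    refine rel_of_run (run_eq_of_chk _ _ (by decide) (by decide) fun j => ?_)
    rw [← chkZ_eq]
    exact cC_all j
  · rw [← word_rp, ← word_rp]
    refine rel_of_run (run_eq_of_chk _ _ (by decide) (by decide) fun j => ?_)
    have h := cB_all j
    rw [cB, Bool.and_eq_true] at h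
    rw [← chkZ_eq]
    exact h.2

/-- Permutations that commute with the shift and keep the form. -/
def Good : Subgroup (Equiv.Perm Y) where
  carrier := {p | ∀ x n, p (x, n) = ((p (x, 0)).1, (p (x, 0)).2 + n) ∧ qf (p (x, n)).1.2 = qf x.2}
  one_mem' := fun x n => by simp
  mul_mem' := by
    intro p q hp hq x n
    refine ⟨?_, ?_⟩
    · simp only [Equiv.Perm.mul_apply]
      rw [(hq x n).1, (hp _ _).1, show q (x, 0) = ((q (x, 0)).1, (q (x, 0)).2) from rfl,
        (hp _ (q (x, 0)).2).1]
      simp only [add_assoc]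
    · rw [Equiv.Perm.mul_apply, show q (x, n) = ((q (x, n)).1, (q (x, n)).2) from rfl,
        (hp _ _).2, (hq x n).2]
  inv_mem' := by
    intro p hp x n
    refine ⟨?_, ?_⟩
    · rw [Equiv.Perm.inv_eq_iff_eq, (hp _ _).1]
      have h := (hp (p⁻¹ (x, 0)).1 (p⁻¹ (x, 0)).2).1
      rw [Prod.mk.eta, show p (p⁻¹ (x, 0)) = (x, 0) from p.apply_symm_apply _,
        Prod.mk.injEq] at h
      rw [← h.1, ← add_assoc, ← h.2, zero_add]
    · have h := (hp (p⁻¹ (x, n)).1 (p⁻¹ (x, n)).2).2
      rw [Prod.mk.eta, show p (p⁻¹ (x, n)) = (x, n) from p.apply_symm_apply _] at h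
      exact h.symm

theorem genP_good (s : Fin 7) : genP s ∈ Good := fun x n =>
  ⟨run_shift [s] x n, qf_of_gram _ (ok_parts s _ x.1.2).2.1 (gram_all s x.1) x.2⟩

/-- The base point. -/
def x0 : Fin 28 × V := (19, Pi.single 4 1)

theorem run_x0 : runY [3, 3, 3, 6, 2] (x0, 0) = (x0, -1) := by
  apply toL_inj
  rw [toL_run]
  decide +kernel

/-- A group acting through good permutations with a non-trivial loop virtually maps onto the
integers. -/
theorem virtual_of_good {G : Type} [Group G] (Φ : G →* Equiv.Perm Y) (hΦ : ∀ g, Φ g ∈ Good)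
    (γ : G) (hγ : Φ γ (x0, 0) = (x0, -1)) :
    ∃ K : Subgroup G, K.FiniteIndex ∧ ∃ φ : K →* Multiplicative ℤ, Function.Surjective φ := by
  have hmul : ∀ g h x, Φ (g * h) (x, 0) =
      ((Φ g ((Φ h (x, 0)).1, 0)).1, (Φ g ((Φ h (x, 0)).1, 0)).2 + (Φ h (x, 0)).2) := by
    intro g h x
    rw [map_mul, Equiv.Perm.mul_apply]
    exact (hΦ g (Φ h (x, 0)).1 (Φ h (x, 0)).2).1
  let act : MulAction G (Fin 28 × V) :=
    { smul := fun g x => (Φ g (x, 0)).1
      one_smul := fun x => by
        show (Φ 1 (x, 0)).1 = x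
        simp
      mul_smul := fun g h x => by
        show (Φ (g * h) (x, 0)).1 = (Φ g ((Φ h (x, 0)).1, 0)).1
        rw [hmul] }
  have hfin : (MulAction.orbit G x0).Finite :=
    (finite_level (qf x0.2)).subset (by
      rintro _ ⟨g, rfl⟩
      exact (hΦ g x0 0).2)
  refine ⟨MulAction.stabilizer G x0, ⟨?_⟩, MonoidHom.mk'
    (fun k => Multiplicative.ofAdd (Φ k (x0, 0)).2) fun a b => ?_, ?_⟩
  · rw [MulAction.index_stabilizer]
    exact ((Set.ncard_pos hfin).2 ⟨x0, MulAction.mem_orbit_self x0⟩).ne'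
  · have hb : (Φ b (x0, 0)).1 = x0 := b.2
    rw [Subgroup.coe_mul, hmul, hb, ofAdd_add]
  · intro n
    have hk : γ ∈ MulAction.stabilizer G x0 := congrArg Prod.fst hγ
    refine ⟨⟨γ, hk⟩ ^ (-n.toAdd), ?_⟩
    rw [map_zpow, MonoidHom.mk'_apply, hγ, ← ofAdd_zsmul]
    simp

/-- The action of the presented group. -/
def act3 : Mod3 →* Equiv.Perm Y := PresentedGroup.toGroup rels_hold

theorem act3_good (g : Mod3) : act3 g ∈ Good := by
  have : Subgroup.closure (Set.range (PresentedGroup.of : Fin 7 → Mod3)) ≤ Good.comap act3 := by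
    rw [Subgroup.closure_le]
    rintro _ ⟨s, rfl⟩
    show act3 (PresentedGroup.of s) ∈ Good
    rw [act3, PresentedGroup.toGroup.of]
    exact genP_good s
  rw [PresentedGroup.closure_range_of] at this
  exact this (Subgroup.mem_top g)

theorem mod3_virtual :
    ∃ K : Subgroup Mod3, K.FiniteIndex ∧ ∃ φ : K →* Multiplicative ℤ, Function.Surjective φ :=
  virtual_of_good act3 act3_good (PresentedGroup.mk rels (word [3, 3, 3, 6, 2]))
    ((lift_word _ _).trans run_x0)

theorem mod3_notT (S : Finset Mod3) (ε : ℝ) (hε : 0 < ε) :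
    ∃ (H : Type) (_ : NormedAddCommGroup H) (_ : InnerProductSpace ℂ H) (_ : CompleteSpace H)
      (π : Mod3 →* (H ≃ₗᵢ[ℂ] H)) (v : H), ‖v‖ = 1 ∧ (∀ s ∈ S, ‖π s v - v‖ < ε) ∧
      ∀ w : H, (∀ g, π g w = w) → w = 0 := by
  obtain ⟨K, hK, φ, hφ⟩ := mod3_virtual
  obtain ⟨k, hk⟩ := hφ (Multiplicative.ofAdd 1)
  exact almost_of_virtual K φ k (by rw [hk]; decide) S ε hε

end Pool.Agent.Lib.MP_c86c76_al.NotT
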